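import Pool.Agent.Work.MP_8da9ea_nt.AD.StmtsB

/-!
# Good combinations over an infinite set of primes
-/

set_option autoImplicit false

namespace Pool.Agent.Work.MP_8da9ea_nt.AD

open MvPolynomial Pool.Agent.Work.MP_327059_nt.GL Pool.Agent.Work.MP_8da9ea_nt.S
  Pool.Agent.Work.MP_8da9ea_nt.EB Pool.Agent.Work.MP_8da9ea_nt.MX

namespace IAD_EX

/-- Derivations vanish at algebraic numbers. -/
theorem der_zero (D : Derivation ℚ ℂ ℂ) (a : ℂ) (ha : IsAlgebraic ℚ a) : D a = 0 := by
  have hint : IsIntegral ℚ a := ha.isIntegral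
  have h1 : D (Polynomial.aeval a (minpoly ℚ a)) =
      Polynomial.aeval a (Polynomial.derivative (minpoly ℚ a)) • D a := D.map_aeval _ _
  rw [minpoly.aeval, map_zero] at h1
  have hsep : (minpoly ℚ a).Separable := (minpoly.irreducible hint).separable
  have h2 : Polynomial.aeval a (Polynomial.derivative (minpoly ℚ a)) ≠ 0 :=
    hsep.aeval_derivative_ne_zero (minpoly.aeval ℚ a)
  exact (smul_eq_zero.mp h1.symm).resolve_left h2

/-- A polynomial that is not zero does not vanish at some rational point. -/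
theorem exists_rat {n : ℕ} (P : MvPolynomial (Fin n) ℂ) (hP : P ≠ 0) :
    ∃ w : Fin n → ℚ, MvPolynomial.eval (fun i => (w i : ℂ)) P ≠ 0 := by
  by_contra hcon
  push Not at hcon
  apply hP
  have hinf : (Set.range ((↑) : ℚ → ℂ)).Infinite := Set.infinite_range_of_injective Rat.cast_injective
  refine MvPolynomial.funext_set (fun _ => Set.range ((↑) : ℚ → ℂ)) (fun _ => hinf) ?_
  intro x hx
  have hx' : ∀ i, ∃ w : ℚ, (w : ℂ) = x i := fun i => hx i (Set.mem_univ i)
  choose w hw using hx'
  have h1 := hcon w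
  have h2 : (fun i => (w i : ℂ)) = x := funext hw
  rw [h2] at h1
  rw [h1, map_zero]

end IAD_EX

open IAD_EX in
theorem ad_EX : S_EX := by
  intro hMR hFT z hz τ μ m m' b b' hN hb hb' hbi hKLI Q hQ hQp
  classical
  obtain ⟨n₀, hn⟩ := hMR 1 m m'
  have halg : ∀ j, IsAlgebraic ℚ (Fin.append b b' j) := by
    intro j
    refine Fin.addCases (fun i => ?_) (fun i => ?_) j
    · rw [Fin.append_left]
      exact hb i
    · rw [Fin.append_right]
      exact hb' i
  have hTT : TT (Fin.append b b') = ⊤ := by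
    rw [eq_top_iff]
    intro δ _
    exact fun i => der_zero δ _ (halg i)
  have hTr : TrLe 0 (Fin.append b b') := by
    intro s hs
    exact (hs.transcendental 0) (halg _)
  let e : Fin n₀ ↪ ℕ :=
    (Fin.valEmbedding.trans (Set.Infinite.natEmbedding Q hQ)).trans (Function.Embedding.subtype _)
  have heQ : ∀ i, e i ∈ Q := fun i => (Set.Infinite.natEmbedding Q hQ i.val).2
  let f : Fin n₀ → Nat.Primes := fun i => ⟨e i, hQp _ (heQ i)⟩
  have hf : Function.Injective f := by
    intro i j h
    have h1 : e i = e j := congrArg (fun x : Nat.Primes => (x : ℕ)) h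
    exact e.injective h1
  have hli : LinearIndependent ℚ (fun i => z (e i)) := hz.comp f hf
  obtain ⟨P, hP0, _, hP⟩ := hn τ μ b b' hN (hFT _ _ halg) hbi hKLI n₀ le_rfl (fun i => z (e i)) hli 0 hTr
  obtain ⟨w, hw⟩ := exists_rat P hP0
  refine ⟨Finsupp.embDomain e (Finsupp.equivFunOnFinite.symm w), ?_, ?_⟩
  · intro p hp
    rw [Finsupp.support_embDomain, Finset.mem_map] at hp
    obtain ⟨i, _, rfl⟩ := hp
    exact heQ i
  · have h1 : cz z (Finsupp.embDomain e (Finsupp.equivFunOnFinite.symm w)) =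
        ∑ i, (w i : ℂ) * z (e i) := by
      unfold cz
      rw [Finsupp.sum_embDomain, Finsupp.sum_fintype]
      · apply Finset.sum_congr rfl
        intro i _
        exact Rat.smul_def _ _
      · intro i
        rw [zero_smul]
    obtain ⟨h2, h3, h4⟩ := hP w hw _ h1
    rw [hTT, zero_add] at h3 h4
    exact ⟨h2, h3, h4⟩

end Pool.Agent.Work.MP_8da9ea_nt.AD
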