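import Pool.Agent.Work.MP_8da9ea_nt.AD.StmtsA
import Pool.Agent.Work.MP_327059_nt.LD.J_MG

/-!
# MP_8da9ea_nt, block AD, item GX: generic derivations
-/

set_option autoImplicit false

namespace Pool.Agent.Work.MP_8da9ea_nt.AD

open Pool.Agent.Work.MP_327059_nt.LD

/-- Item GX. -/
theorem ad_GX : S_GX := by
  classical
  intro M w hw
  rcases M with _ | m
  · refine ⟨fun a => a.elim0, fun i _ => ?_⟩
    rw [Matrix.det_isEmpty]
    exact one_ne_zero
  choose k hk using hw
  have hind : ∀ i, LinearIndependent ℂ (w i) → LinearIndependent ℂ (k i) := by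
    intro i h
    rw [Fintype.linearIndependent_iff] at h ⊢
    intro g hg j
    refine h g ?_ j
    refine LinearMap.ext fun δ => ?_
    rw [LinearMap.sum_apply, LinearMap.zero_apply]
    have h1 := congrArg δ.liftKaehlerDifferential hg
    rw [map_sum, map_zero] at h1
    rw [← h1]
    refine Finset.sum_congr rfl fun l _ => ?_
    rw [map_smul, hk i l δ, LinearMap.smul_apply]
  by_cases hex : ∃ i, LinearIndependent ℂ (w i)
  · obtain ⟨i0, h0⟩ := hex
    obtain ⟨φ, hφ⟩ := le_MG (KaehlerDifferential ℚ ℂ) m
      (fun i => if LinearIndependent ℂ (w i) then k i else k i0)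
      (fun i => by
        by_cases hi : LinearIndependent ℂ (w i)
        · simp only [if_pos hi]
          exact hind i hi
        · simp only [if_neg hi]
          exact hind i0 h0)
    refine ⟨fun a => (φ a).compDer (KaehlerDifferential.D ℚ ℂ), fun i hi => ?_⟩
    have h1 := hφ i
    simp only [if_pos hi] at h1
    have h3 : ∀ a, ((φ a).compDer (KaehlerDifferential.D ℚ ℂ)).liftKaehlerDifferential = φ a :=
      fun a => Derivation.liftKaehlerDifferential_unique _ _
        (Derivation.liftKaehlerDifferential_comp _)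
    have h2 : (Matrix.of fun a l => w i l ((φ a).compDer (KaehlerDifferential.D ℚ ℂ))) =
        Matrix.of fun a l => φ a (k i l) := by
      ext a l
      rw [Matrix.of_apply, Matrix.of_apply, ← hk i l, h3]
    rw [h2]
    exact h1
  · exact ⟨fun _ => 0, fun i hi => absurd ⟨i, hi⟩ hex⟩

end Pool.Agent.Work.MP_8da9ea_nt.AD
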