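import Pool.Agent.Work.MP_8da9ea_nt.AD.StmtsA

/-!
Block AD of problem 8da9ea, item RK: ranks.
-/

set_option autoImplicit false

namespace Pool.Agent.Work.MP_8da9ea_nt.AD

open Pool.Agent.Work.MP_327059_nt.LD

/-- Ranks. -/
theorem ad_RK : S_RK := by
  intro V J _ _ _ w M
  constructor
  · intro hM
    obtain ⟨κ, a, ha, hspan, hli⟩ := exists_linearIndependent' ℂ w
    have : Finite κ := Finite.of_injective a ha
    have : Fintype κ := Fintype.ofFinite κ
    have hcard : Module.finrank ℂ (LinearMap.range (LinearMap.pi w)) ≤ Fintype.card κ := by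
      have hinj : Function.Injective
          ((LinearMap.funLeft ℂ ℂ a).comp (LinearMap.range (LinearMap.pi w)).subtype) := by
        rw [← LinearMap.ker_eq_bot, LinearMap.ker_eq_bot']
        rintro ⟨x, hx⟩ h0
        obtain ⟨v, rfl⟩ := hx
        have h1 : ∀ l, w (a l) v = 0 := fun l => congrFun h0 l
        have h2 : ∀ f ∈ Submodule.span ℂ (Set.range w), f v = 0 := by
          intro f hf
          rw [← hspan] at hf
          induction hf using Submodule.span_induction with
          | mem f hf =>
            obtain ⟨l, rfl⟩ := hf
            exact h1 l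
          | zero => rfl
          | add f g _ _ hf hg => rw [LinearMap.add_apply, hf, hg, add_zero]
          | smul c f _ hf => rw [LinearMap.smul_apply, hf, smul_zero]
        apply Subtype.ext
        funext j
        exact h2 (w j) (Submodule.subset_span ⟨j, rfl⟩)
      have h3 := LinearMap.finrank_le_finrank_of_injective hinj
      rwa [Module.finrank_fintype_fun_eq_card] at h3
    have hMk : Fintype.card (Fin M) ≤ Fintype.card κ := by
      rw [Fintype.card_fin]
      exact hM.trans hcard
    obtain ⟨e⟩ := Function.Embedding.nonempty_of_card_le hMk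
    exact ⟨fun l => a (e l), hli.comp e e.injective⟩
  · intro s v hdet
    have hrow : LinearIndependent ℂ (Matrix.of fun a l => w (s l) (v a)).row := by
      rw [Matrix.linearIndependent_rows_iff_isUnit, Matrix.isUnit_iff_isUnit_det]
      exact isUnit_iff_ne_zero.mpr hdet
    have h1 : LinearIndependent ℂ (fun a : Fin M =>
        (⟨LinearMap.pi w (v a), ⟨v a, rfl⟩⟩ : LinearMap.range (LinearMap.pi w))) := by
      apply LinearIndependent.of_comp
        ((LinearMap.funLeft ℂ ℂ s).comp (LinearMap.range (LinearMap.pi w)).subtype)
      exact hrow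
    have h2 := h1.fintype_card_le_finrank
    rwa [Fintype.card_fin] at h2

end Pool.Agent.Work.MP_8da9ea_nt.AD
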