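import Pool.Agent.Work.MP_8da9ea_nt.AD.StmtsA
import Pool.Agent.Work.MP_327059_nt.LD.I_TH
import Pool.Agent.Work.MP_327059_nt.LD.J_CJ
import Pool.Agent.Work.MP_327059_nt.LD.J_SH
import Pool.Agent.Work.MP_327059_nt.LD.J_EU
import Pool.Agent.Work.MP_327059_nt.LD.J_EG
import Pool.Agent.Work.MP_327059_nt.LD.J_PZ
import Pool.Agent.Work.MP_327059_nt.LD.J_DT

/-!
# MP_8da9ea_nt, block AD, item RN: ranks for almost all `n`
-/

set_option autoImplicit false

namespace Pool.Agent.Work.MP_8da9ea_nt.AD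

open Pool.Agent.Work.MP_327059_nt.LD
open MvPolynomial

namespace IAD_RN

theorem ind_le {A B : Set ℕ} (h : A ⊆ B) (n : ℕ) : ind A n ≤ ind B n := by
  unfold ind
  exact Set.indicator_le_indicator_of_subset h (fun _ => zero_le_one) n

theorem LNull_mono {A B : Set ℕ} (h : A ⊆ B) (hB : LNull B) : LNull A := by
  intro ε hε
  obtain ⟨C, hC⟩ := hB ε hε
  refine ⟨C, fun N => le_trans ?_ (hC N)⟩
  unfold ws
  refine Finset.sum_le_sum fun n _ => ?_
  exact div_le_div_of_nonneg_right (ind_le h n) (Nat.cast_nonneg n)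

/-- the value of the form `o` at the derivation `δ`, a `ℚ`-linear function -/
noncomputable def g {J : Type} (F : ℂ → J → (Derivation ℚ ℂ ℂ →ₗ[ℂ] ℂ))
    (hF : ∀ y y' o, F (y + y') o = F y o + F y' o) (o : J) (δ : Derivation ℚ ℂ ℂ) : ℂ →ₗ[ℚ] ℂ :=
  AddMonoidHom.toRatLinearMap (AddMonoidHom.mk' (fun y => F y o δ) (fun a b => by
    rw [hF]
    rfl))

theorem g_apply {J : Type} (F : ℂ → J → (Derivation ℚ ℂ ℂ →ₗ[ℂ] ℂ))
    (hF : ∀ y y' o, F (y + y') o = F y o + F y' o) (o : J) (δ : Derivation ℚ ℂ ℂ) (y : ℂ) :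
    g F hF o δ y = F y o δ := rfl

/-- the function with values in a space of matrices -/
noncomputable def FZ (z : ℕ → ℂ) {J : Type} (F : ℂ → J → (Derivation ℚ ℂ ℂ →ₗ[ℂ] ℂ)) {M : ℕ}
    (D : Fin M → Derivation ℚ ℂ ℂ) (n : ℕ) : Fin M × J → ℂ := fun x => F (z n) x.2 (D x.1)

end IAD_RN

open IAD_RN in
theorem ad_RN (hGX : S_GX) (hRK : S_RK) : S_RN := by
  classical
  intro z hadd J _ F hF hRep M hQ
  -- the enumeration
  obtain ⟨c0, -, hc0⟩ := hQ {p | p.Prime} Nat.infinite_setOfPred_prime (fun p hp => hp)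
  obtain ⟨s0, -⟩ := (hRK (Derivation ℚ ℂ ℂ) J (F (cz z c0)) M).1 hc0
  have hne0 : Nonempty ((ℕ →₀ ℚ) × (Fin M → J)) := ⟨(c0, s0)⟩
  have hJc : Countable J := Finite.to_countable
  obtain ⟨en, hen⟩ := exists_surjective_nat ((ℕ →₀ ℚ) × (Fin M → J))
  obtain ⟨D, hD⟩ := hGX M (fun i l => F (cz z (en i).1) ((en i).2 l)) (fun i l => hRep _ _)
  have hD' : ∀ (c : ℕ →₀ ℚ) (s : Fin M → J),
      LinearIndependent ℂ (fun l => F (cz z c) (s l)) →
      (Matrix.of fun a l => F (cz z c) (s l) (D a)).det ≠ 0 := by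
    intro c s hcs
    obtain ⟨i, hi⟩ := hen (c, s)
    have h1 := hD i
    rw [hi] at h1
    exact h1 hcs
  have hFadd : ∀ k n : ℕ, 0 < k → 0 < n → FZ z F D (k * n) = FZ z F D k + FZ z F D n := by
    intro k n hk hn
    funext x
    rw [Pi.add_apply]
    unfold FZ
    rw [hadd k n hk hn, hF]
    rfl
  obtain ⟨U, hU1, hU2⟩ := le_EG (Fin M × J) (FZ z F D)
  have hQi : {p : ℕ | p.Prime ∧ p ∉ {p : ℕ | p.Prime ∧ FZ z F D p ∉ U}}.Infinite :=
    ld_TH.2.2.2.2.2 _ hU1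
  obtain ⟨c, hc1, hc2⟩ := hQ _ hQi (fun p hp => hp.1)
  obtain ⟨s, hs⟩ := (hRK (Derivation ℚ ℂ ℂ) J (F (cz z c)) M).1 hc2
  obtain ⟨P0, hP01, hP02⟩ := le_DT M
  obtain ⟨f, hf⟩ : ∃ f : Fin M × Fin M → Fin M × J, f = fun x => (x.1, s x.2) := ⟨_, rfl⟩
  have hPh : (rename f P0).IsHomogeneous M := hP01.rename_isHomogeneous
  have hPe : ∀ x : Fin M × J → ℂ,
      eval x (rename f P0) = (Matrix.of fun a j => x (a, s j)).det := by
    intro x
    rw [eval_rename, hP02, hf]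
    rfl
  have hmem : (fun x : Fin M × J => F (cz z c) x.2 (D x.1)) ∈ U := by
    have e1 : (fun x : Fin M × J => F (cz z c) x.2 (D x.1)) =
        ∑ p ∈ c.support, ((c p : ℂ)) • FZ z F D p := by
      funext x
      rw [Finset.sum_apply]
      show F (cz z c) x.2 (D x.1) = _
      rw [← g_apply F hF]
      unfold cz Finsupp.sum
      rw [map_sum]
      refine Finset.sum_congr rfl fun p _ => ?_
      rw [map_smul, Rat.smul_def]
      rfl
    rw [e1]
    refine Submodule.sum_mem _ fun p hp => Submodule.smul_mem _ _ ?_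
    by_contra hcon
    exact (hc1 p hp).2 ⟨(hc1 p hp).1, hcon⟩
  have hne : eval (fun x : Fin M × J => F (cz z c) x.2 (D x.1))
      (homogeneousComponent M (rename f P0)) ≠ 0 := by
    rw [homogeneousComponent_of_mem ((mem_homogeneousSubmodule _ _).mpr hPh), if_pos rfl, hPe]
    exact hD' c s hs
  have hmain := (le_PZ le_CJ le_SH le_EU) (Fin M × J) (FZ z F D) U hFadd hU1 hU2 M
    (rename f P0) hPh.totalDegree_le ⟨_, hmem, hne⟩
  refine LNull_mono ?_ hmain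
  rintro n ⟨hn1, hn2⟩
  refine ⟨hn1, ?_⟩
  rw [hPe]
  by_contra hcon
  exact absurd hn2 (not_lt.2 ((hRK (Derivation ℚ ℂ ℂ) J (F (z n)) M).2 s D hcon))

end Pool.Agent.Work.MP_8da9ea_nt.AD
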