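import Pool.Agent.Work.MP_8da9ea_nt.AD.StmtsA
import Pool.Agent.Work.MP_327059_nt.LD.I_NC
import Pool.Agent.Work.MP_327059_nt.LD.I_TH
import Pool.Agent.Work.MP_327059_nt.LD.I_NR
import Pool.Agent.Work.MP_327059_nt.LD.I_WS
import Pool.Agent.Work.MP_327059_nt.LD.I_SP
import Pool.Agent.Work.MP_327059_nt.LD.I_VR
import Pool.Agent.Work.MP_327059_nt.LD.I_CH

/-!
# MP_8da9ea_nt, block AD, item ZW: values in a space of finite dimension (helper57)
-/

set_option autoImplicit false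

namespace Pool.Agent.Work.MP_8da9ea_nt.AD

open Pool.Agent.Work.MP_327059_nt.LD

namespace IAD_ZW

theorem LNull_mono {A B : Set ℕ} (h : A ⊆ B) (hB : LNull B) : LNull A := by
  intro ε hε
  obtain ⟨C, hC⟩ := hB ε hε
  refine ⟨C, fun N => le_trans ?_ (hC N)⟩
  unfold ws
  refine Finset.sum_le_sum fun n _ => ?_
  refine div_le_div_of_nonneg_right ?_ (Nat.cast_nonneg n)
  exact Set.indicator_le_indicator_of_subset h (fun _ => zero_le_one) n

theorem finite_primes (z : ℕ → ℂ) (hz : LinearIndependent ℚ (fun p : Nat.Primes => z p))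
    (W : Submodule ℚ ℂ) [FiniteDimensional ℚ W] : {p : ℕ | p.Prime ∧ z p ∈ W}.Finite := by
  have h2 : LinearIndependent ℚ (fun p : {p : Nat.Primes // z p ∈ W} => z p.1) :=
    hz.comp (fun p : {p : Nat.Primes // z p ∈ W} => p.1) Subtype.val_injective
  have h1 : LinearIndependent ℚ
      (fun p : {p : Nat.Primes // z p ∈ W} => (⟨z p.1, p.2⟩ : W)) :=
    LinearIndependent.of_comp W.subtype h2
  have h3 : Finite {p : Nat.Primes // z p ∈ W} := h1.finite
  refine (Set.finite_range (fun p : {p : Nat.Primes // z p ∈ W} => ((p.1 : Nat.Primes) : ℕ))).subset ?_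
  rintro p ⟨hp, hpW⟩
  exact ⟨⟨⟨p, hp⟩, hpW⟩, rfl⟩

theorem main (hTH : StTH) (hNC : StNC) : S_ZW := by
  obtain ⟨-, -, -, hfin, hcompl, -⟩ := hTH
  intro z hadd hz W hW
  obtain ⟨W', hWW⟩ := Submodule.exists_isCompl W
  have hk : ∀ x : ℂ, Submodule.projectionOnto W' W hWW.symm x = 0 ↔ x ∈ W := by
    intro x
    rw [← LinearMap.mem_ker, Submodule.ker_projectionOnto]
  have hL : ∀ x : ℂ, (((Submodule.projectionOnto W' W hWW.symm x : W') : ℂ) = 0) ↔ x ∈ W := by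
    intro x
    rw [← hk x]
    exact ZeroMemClass.coe_eq_zero
  have h := hNC (fun n => ((Submodule.projectionOnto W' W hWW.symm (z n) : W') : ℂ)) ?_ ?_ 0
  · refine LNull_mono ?_ h
    rintro n ⟨-, hn⟩
    exact (hL (z n)).2 hn
  · intro m n hm hn
    show ((Submodule.projectionOnto W' W hWW.symm (z (m * n)) : W') : ℂ) = _
    rw [hadd m n hm hn, map_add]
    rfl
  · have h1 := hcompl {p : ℕ | p.Prime ∧ z p ∈ W} (hfin _ (finite_primes z hz W))
    have h2 : {p : ℕ | p.Prime ∧ p ∉ {p : ℕ | p.Prime ∧ z p ∈ W}} =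
        {p : ℕ | p.Prime ∧ ((Submodule.projectionOnto W' W hWW.symm (z p) : W') : ℂ) ≠ 0} := by
      ext p
      constructor
      · rintro ⟨hp, hpn⟩
        exact ⟨hp, fun h0 => hpn ⟨hp, (hL (z p)).1 h0⟩⟩
      · rintro ⟨hp, hpn⟩
        exact ⟨hp, fun h0 => hpn ((hL (z p)).2 h0.2)⟩
    rw [h2] at h1
    exact h1

end IAD_ZW

theorem ad_ZW : S_ZW :=
  IAD_ZW.main ld_TH (ld_NC ld_TH (ld_NR ld_WS ld_SP (ld_VR ld_WS) (ld_CH ld_WS)))

end Pool.Agent.Work.MP_8da9ea_nt.AD
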