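import Mathlib

/-!
# Small lemmas on algebraic independence
-/

set_option autoImplicit false

namespace Pool.Agent.Work.MP_8da9ea_nt.AD

/-- If `k` of the `k + 1` numbers `f x` are algebraically independent and `f o` is algebraic, then all
the others are algebraically independent. -/
theorem all_but {X : Type} [Fintype X] [DecidableEq X] (f : X → ℂ) {k : ℕ} (s : Fin k → X)
    (hs : AlgebraicIndependent ℚ (fun i => f (s i))) (hk : Fintype.card X = k + 1) (o : X)
    (ho : IsAlgebraic ℚ (f o)) :
    AlgebraicIndependent ℚ (fun q : {q : X // q ≠ o} => f q) := by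
  have h1 : ∀ i, s i ≠ o := by
    intro i h
    have h2 := hs.transcendental i
    rw [h] at h2
    exact h2 ho
  have h3 : Function.Injective s := by
    intro i j hij
    apply hs.injective
    show f (s i) = f (s j)
    rw [hij]
  let e : Fin k → {q : X // q ≠ o} := fun i => ⟨s i, h1 i⟩
  have he : Function.Injective e := by
    intro i j hij
    exact h3 (congrArg Subtype.val hij)
  have hcard : Fintype.card (Fin k) = Fintype.card {q : X // q ≠ o} := by
    have h4 : Fintype.card {q : X // q ≠ o} = Fintype.card X - 1 := by
      have h5 := Fintype.card_subtype_compl (fun q : X => q = o)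
      rw [Fintype.card_subtype_eq] at h5
      exact h5
    rw [h4, hk, Fintype.card_fin]
    rfl
  have hb : Function.Bijective e := (Fintype.bijective_iff_injective_and_card e).2 ⟨he, hcard⟩
  have h6 : (fun i => f (s i)) = (fun q : {q : X // q ≠ o} => f q) ∘ (Equiv.ofBijective e hb) := by
    funext i
    rfl
  rw [h6] at hs
  exact (algebraicIndependent_equiv (Equiv.ofBijective e hb)).1 hs

end Pool.Agent.Work.MP_8da9ea_nt.AD
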