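import Pool.Agent.Work.MP_8da9ea_nt.AD.StmtsB
import Pool.Agent.Work.MP_8da9ea_nt.AD.Ext
import Pool.Agent.Work.MP_8da9ea_nt.EB.Final

/-!
# From the ranks to the conclusions at one point
-/

set_option autoImplicit false

namespace Pool.Agent.Work.MP_8da9ea_nt.AD

open MvPolynomial Pool.Agent.Work.MP_327059_nt.GL Pool.Agent.Work.MP_8da9ea_nt.S
  Pool.Agent.Work.MP_8da9ea_nt.EB Pool.Agent.Work.MP_8da9ea_nt.MX

theorem der_alg (δ : Derivation ℚ ℂ ℂ) {x : ℂ} (hx : IsAlgebraic ℚ x) : δ x = 0 := by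
  by_contra hne
  have hx' : IsAlgebraic ℚ x := hx
  obtain ⟨hi⟩ : Nonempty (IsIntegral ℚ x) := ⟨hx.isIntegral⟩
  have h1 : Polynomial.aeval x (minpoly ℚ x) = 0 := minpoly.aeval ℚ x
  have h2 : δ (Polynomial.aeval x (minpoly ℚ x)) =
      Polynomial.aeval x (Polynomial.derivative (minpoly ℚ x)) • δ x :=
    Derivation.map_aeval δ (minpoly ℚ x) x
  rw [h1, map_zero, smul_eq_mul] at h2
  have h3 : Polynomial.aeval x (Polynomial.derivative (minpoly ℚ x)) ≠ 0 :=
    (minpoly.irreducible hi).separable.aeval_derivative_ne_zero (minpoly.aeval ℚ x)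
  exact (mul_ne_zero h3 hne) h2.symm

theorem TT_top {m : ℕ} (b : Fin m → ℂ) (hb : ∀ j, IsAlgebraic ℚ (b j)) : TT b = ⊤ := by
  rw [eq_top_iff]
  intro δ _ j
  exact der_alg δ (hb j)

theorem k_AZ : S_AZ := by
  classical
  intro hZ hT hB m m' b b' z ω₁ ω₂ τ hb hb' hSch h1 hN hω h3 h4 h5
  have halg : ∀ j, IsAlgebraic ℚ (Fin.append b b' j) := by
    intro j
    refine Fin.addCases (fun i => ?_) (fun i => ?_) j
    · rw [Fin.append_left]
      exact hb i
    · rw [Fin.append_right]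
      exact hb' i
  have hTT : TT (Fin.append b b') = ⊤ := TT_top _ halg
  have hκ : TrLe 0 (Fin.append b b') := fun s hs => hs.transcendental 0 (halg (s 0))
  have hnotL : ∀ y : ℂ, ω₁⁻¹ * y ∉ Lam τ → ∀ a c : ℤ, y ≠ (a : ℂ) * ω₁ + (c : ℂ) * ω₂ := by
    intro y hy a c hac
    apply hy
    rw [hac]
    rcases hω with h | h
    · refine mem_Lam.2 ⟨a, c, ?_⟩
      rw [h]
      field_simp
    · refine mem_Lam.2 ⟨a, -c, ?_⟩
      rw [h]
      push_cast
      field_simp
  have hb2 : ∃ s : Fin (m + 2 * m') → Option (Fin m ⊕ (Fin m' ⊕ Fin m')),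
      AlgebraicIndependent ℚ (fun i => (s i).elim z (Sum.elim (fun j => Complex.exp (b j * z))
        (Sum.elim (fun j => wp ω₁ ω₂ (b' j * z)) (fun j => zt ω₁ ω₂ (b' j * z))))) := by
    obtain ⟨s, hs⟩ := hB m m' 0 b b' z ω₁ ω₂ τ ω₁⁻¹ (fun i : Fin 0 => i.elim0)
      algebraicIndependent_empty_type (fun j => (halg j).extendScalars
        (algebraMap ℚ (IntermediateField.adjoin ℚ
          (Set.range fun i : Fin 0 => Fin.append b b' (i.elim0)))).injective) hN hω h1 rfl h3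
      (by rw [hTT, Nat.zero_add]; exact h5)
    have key : ∀ i, ∃ o, s i = Sum.inr o := by
      intro i
      rcases h : s i with j | o
      · exfalso
        have h2 := hs.transcendental i
        rw [h] at h2
        exact h2 (halg j)
      · exact ⟨o, rfl⟩
    choose s' hs' using key
    refine ⟨s', ?_⟩
    have h6 : (fun i => (s' i).elim z (Sum.elim (fun j => Complex.exp (b j * z))
        (Sum.elim (fun j => wp ω₁ ω₂ (b' j * z)) (fun j => zt ω₁ ω₂ (b' j * z))))) =
        fun i => Sum.elim (Fin.append b b') (fun o : Option (Fin m ⊕ (Fin m' ⊕ Fin m')) =>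
          o.elim z (Sum.elim (fun j => Complex.exp (b j * z))
          (Sum.elim (fun j => wp ω₁ ω₂ (b' j * z)) (fun j => zt ω₁ ω₂ (b' j * z))))) (s i) := by
      funext i
      rw [hs' i]
      rfl
    rw [h6]
    exact hs
  refine ⟨fun j => hnotL _ (h3 j), hb2, fun hz => ?_, fun r r' N hr hr' s k t p hNN => ?_⟩
  · obtain ⟨s, hs⟩ := hb2
    have h6 := all_but (fun o : Option (Fin m ⊕ (Fin m' ⊕ Fin m')) =>
      o.elim z (Sum.elim (fun j => Complex.exp (b j * z))
        (Sum.elim (fun j => wp ω₁ ω₂ (b' j * z)) (fun j => zt ω₁ ω₂ (b' j * z))))) s hs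
      (by simp; ring) none hz
    exact h6.comp (fun q => ⟨some q, by simp⟩) (fun x y hxy => by
      have := congrArg Subtype.val hxy
      exact Option.some.inj this)
  · refine hZ m m' 0 r r' N b b' z ω₁ ω₂ hκ (fun h => ⟨by have := hr h; omega,
      hT m m' 0 b b' z hSch hκ⟩) (fun h => ?_) s k t p hNN
    exact ⟨τ, ω₁⁻¹, hN, hω, h1, fun K h2 h3 => Final.nrm_alg hN K h2 h3, by have := hr' h; omega,
      Or.inr ⟨rfl, by rw [hTT]; omega, by rw [hTT]; omega⟩⟩

end Pool.Agent.Work.MP_8da9ea_nt.AD
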