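import Pool.Agent.Work.MP_8da9ea_nt.AD.StmtsB
import Pool.Agent.Work.MP_8da9ea_nt.SF.Parts

/-!
# The bases of the lattices with algebraic invariants are countably many
-/

set_option autoImplicit false

namespace Pool.Agent.Work.MP_8da9ea_nt.AD

open MvPolynomial Pool.Agent.Work.MP_327059_nt.GL Pool.Agent.Work.MP_8da9ea_nt.S
  Pool.Agent.Work.MP_8da9ea_nt.EB Pool.Agent.Work.MP_8da9ea_nt.MX

theorem k_CL : S_CL := by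
  have hF : CD.Closed (CD.cl (∅ : Set ℂ)) := CD.closed_cl ∅
  have hc : ((CD.cl (∅ : Set ℂ) : IntermediateField ℚ ℂ) : Set ℂ).Countable :=
    CD.prf_ClC ∅ Set.countable_empty
  have halgF : ∀ x : ℂ, IsAlgebraic ℚ x → x ∈ CD.cl (∅ : Set ℂ) := fun x hx =>
    hF.alg x (hx.extendScalars (algebraMap ℚ (CD.cl (∅ : Set ℂ))).injective)
  have hpow : ∀ (x : ℂ) (n : ℕ), 0 < n → x ^ n ∈ CD.cl (∅ : Set ℂ) → x ∈ CD.cl (∅ : Set ℂ) := by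
    intro x n hn hx
    refine hF.alg x (IsAlgebraic.of_pow hn ?_)
    exact isAlgebraic_algebraMap (⟨x ^ n, hx⟩ : CD.cl (∅ : Set ℂ))
  refine (hc.prod hc).mono ?_
  rintro ⟨ω₁, ω₂⟩ ⟨him, h4, h6⟩
  have him' : (ω₂ / ω₁).im ≠ 0 := him
  have h4' : IsAlgebraic ℚ (60 * gk 4 ω₁ ω₂) := h4
  have h6' : IsAlgebraic ℚ (140 * gk 6 ω₁ ω₂) := h6
  have h1 : ω₁ ≠ 0 := by
    rintro rfl
    simp at him'
  have hω2 : ω₂ = ω₁ * (ω₂ / ω₁) := by field_simp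
  have m4 := halgF _ h4'
  have m6 := halgF _ h6'
  have hj : jInv ω₁ ω₂ ∈ CD.cl (∅ : Set ℂ) := by
    have h : jInv ω₁ ω₂ = 1728 * (60 * gk 4 ω₁ ω₂) ^ 3 /
        ((60 * gk 4 ω₁ ω₂) ^ 3 - 27 * (140 * gk 6 ω₁ ω₂) ^ 2) := rfl
    rw [h]
    exact div_mem (mul_mem (ofNat_mem _ 1728) (pow_mem m4 3))
      (sub_mem (pow_mem m4 3) (mul_mem (ofNat_mem _ 27) (pow_mem m6 2)))
  have hτ : ω₂ / ω₁ ∈ CD.cl (∅ : Set ℂ) := (CD.closed_jiff hF him').1 hj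
  have hbig : bigField 1 (ω₂ / ω₁) (![] : Fin 0 → ℂ) (![] : Fin 0 → ℂ) ≤ CD.cl (∅ : Set ℂ) :=
    CD.closed_big hF (one_mem _) hτ (fun l => l.elim0) (fun i => i.elim0)
  have g4 : 60 * gk 4 1 (ω₂ / ω₁) ∈ CD.cl (∅ : Set ℂ) := hbig (big_g2 _ _ _ _)
  have g6 : 140 * gk 6 1 (ω₂ / ω₁) ∈ CD.cl (∅ : Set ℂ) := hbig (big_g3 _ _ _ _)
  have e4 : gk 4 1 (ω₂ / ω₁) = ω₁ ^ 4 * gk 4 ω₁ ω₂ := by
    rw [gk_norm h1, ← hω2]
  have e6 : gk 6 1 (ω₂ / ω₁) = ω₁ ^ 6 * gk 6 ω₁ ω₂ := by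
    rw [gk_norm h1, ← hω2]
  have hω₁ : ω₁ ∈ CD.cl (∅ : Set ℂ) := by
    by_cases h : gk 4 ω₁ ω₂ = 0
    · have h' : gk 6 ω₁ ω₂ ≠ 0 := by
        intro h'
        have a4 : gk 4 1 (ω₂ / ω₁) = 0 := by rw [e4, h, mul_zero]
        have a6 : gk 6 1 (ω₂ / ω₁) = 0 := by rw [e6, h', mul_zero]
        rcases lt_or_gt_of_ne him' with hlt | hgt
        · refine gk_not_both (τ := -(ω₂ / ω₁)) (by simpa using hlt) ?_ ?_
          · rw [gk_N, a4]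
          · rw [gk_N, a6]
        · exact gk_not_both hgt a4 a6
      refine hpow ω₁ 6 (by norm_num) ?_
      have h7 : ω₁ ^ 6 = (140 * gk 6 1 (ω₂ / ω₁)) / (140 * gk 6 ω₁ ω₂) := by
        rw [e6]
        field_simp
      rw [h7]
      exact div_mem g6 m6
    · refine hpow ω₁ 4 (by norm_num) ?_
      have h7 : ω₁ ^ 4 = (60 * gk 4 1 (ω₂ / ω₁)) / (60 * gk 4 ω₁ ω₂) := by
        rw [e4]
        field_simp
      rw [h7]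
      exact div_mem g4 m4
  refine ⟨hω₁, ?_⟩
  show ω₂ ∈ CD.cl (∅ : Set ℂ)
  rw [hω2]
  exact mul_mem hω₁ hτ

end Pool.Agent.Work.MP_8da9ea_nt.AD
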