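import Pool.Agent.Work.MP_8da9ea_nt.AD.StmtsB

/-!
# Representable forms
-/

set_option autoImplicit false

namespace Pool.Agent.Work.MP_8da9ea_nt.AD

open MvPolynomial Pool.Agent.Work.MP_327059_nt.GL Pool.Agent.Work.MP_8da9ea_nt.S
  Pool.Agent.Work.MP_8da9ea_nt.EB Pool.Agent.Work.MP_8da9ea_nt.MX

theorem kd (δ : Derivation ℚ ℂ ℂ) (x : ℂ) :
    δ.liftKaehlerDifferential (KaehlerDifferential.D ℚ ℂ x) = δ x :=
  δ.liftKaehlerDifferential_comp_D x

theorem k_RP : S_RP := by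
  refine ⟨fun y => ⟨KaehlerDifferential.D ℚ ℂ y, fun δ => ?_⟩,
    fun u => ⟨(Complex.exp u)⁻¹ • KaehlerDifferential.D ℚ ℂ (Complex.exp u), fun δ => ?_⟩,
    fun τ μ u => ?_, fun τ μ u => ?_⟩
  · rw [kd]
    rfl
  · rw [map_smul, kd, smul_eq_mul]
    show _ = FR.th δ u
    unfold FR.th
    rw [div_eq_mul_inv, mul_comm]
  · by_cases h : u ∈ Lam τ
    · refine ⟨0, fun δ => ?_⟩
      rw [map_zero]
      show _ = lam τ μ δ u
      unfold lam
      rw [if_pos h]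
    · refine ⟨(ye τ μ u)⁻¹ • KaehlerDifferential.D ℚ ℂ (xe τ μ u), fun δ => ?_⟩
      rw [map_smul, kd, smul_eq_mul]
      show _ = lam τ μ δ u
      unfold lam
      rw [if_neg h, div_eq_mul_inv, mul_comm]
  · by_cases h : u ∈ Lam τ
    · refine ⟨KaehlerDifferential.D ℚ ℂ (μ * qp τ u), fun δ => ?_⟩
      rw [kd]
      show _ = etT τ μ 0 δ u
      unfold etT etC
      rw [if_pos h, zero_mul, add_zero]
    · refine ⟨KaehlerDifferential.D ℚ ℂ (ze τ μ u) + xe τ μ u • ((ye τ μ u)⁻¹ •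
        KaehlerDifferential.D ℚ ℂ (xe τ μ u)), fun δ => ?_⟩
      rw [map_add, map_smul, map_smul, kd, kd, smul_eq_mul, smul_eq_mul]
      show _ = etT τ μ 0 δ u
      unfold etT etC etf lam
      rw [if_neg h, if_neg h, if_neg h, zero_mul, add_zero]
      ring

end Pool.Agent.Work.MP_8da9ea_nt.AD
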