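import Pool.Agent.Work.MP_8da9ea_nt.AD.Final
import Pool.Agent.Work.MP_8da9ea_nt.AD.I_GX
import Pool.Agent.Work.MP_8da9ea_nt.AD.I_RK
import Pool.Agent.Work.MP_8da9ea_nt.AD.I_ZW
import Pool.Agent.Work.MP_8da9ea_nt.AD.I_RN
import Pool.Agent.Work.MP_8da9ea_nt.AD.K_RP
import Pool.Agent.Work.MP_8da9ea_nt.AD.I_EX
import Pool.Agent.Work.MP_8da9ea_nt.AD.K_AZ
import Pool.Agent.Work.MP_8da9ea_nt.AD.K_CL
import Pool.Agent.Work.MP_8da9ea_nt.MX.AsmF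

/-!
# The elliptico-toric inequality for almost all integers: assembly
-/

set_option autoImplicit false

namespace Pool.Agent.Work.MP_8da9ea_nt.AD

open MvPolynomial Pool.Agent.Work.MP_327059_nt.GL Pool.Agent.Work.MP_8da9ea_nt.S
  Pool.Agent.Work.MP_8da9ea_nt.EB Pool.Agent.Work.MP_8da9ea_nt.MX Pool.Agent.Work.MP_327059_nt.LD

theorem x_CM0 : S_CM0 := by
  intro ω₁ ω₂ him hcm hj t p
  have h1 : ω₁ ≠ 0 := ne_of_im him
  refine CH.x_BaseCM ω₁ ω₂ ?_ hj hcm t p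
  rw [LinearIndependent.pair_iff]
  intro a b h
  have h2 : (a : ℂ) + (b : ℂ) * (ω₂ / ω₁) = 0 := by
    have h3 : ω₁ * ((a : ℂ) + (b : ℂ) * (ω₂ / ω₁)) = 0 := by
      have h4 : (a : ℂ) * ω₁ + (b : ℂ) * ω₂ = 0 := by
        simpa only [Complex.real_smul] using h
      rw [← h4]
      field_simp
    exact (mul_eq_zero.1 h3).resolve_left h1
  have h5 := congrArg Complex.im h2
  simp only [Complex.add_im, Complex.ofReal_im, Complex.re_ofReal_mul, Complex.im_ofReal_mul,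
    Complex.zero_im, zero_add] at h5
  have hb : b = 0 := (mul_eq_zero.1 h5).resolve_right him
  subst hb
  have h6 := congrArg Complex.re h2
  simp at h6
  exact ⟨h6, rfl⟩

/-- **The final theorem.** -/
theorem main :
    LinearIndependent ℚ (fun p : Nat.Primes => ((Real.log (p : ℕ) : ℝ) : ℂ)) ∧
    ∀ z : ℕ → ℂ, (∀ k n : ℕ, 0 < k → 0 < n → z (k * n) = z k + z n) →
      LinearIndependent ℚ (fun p : Nat.Primes => z p) →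
    ∃ E : Set ℕ, Filter.Tendsto (fun N : ℕ => (∑ n ∈ Finset.Icc 1 N,
        E.indicator (fun n => (1 : ℝ) / n) n) / Real.log N) Filter.atTop (nhds 0) ∧
      (∀ (m : ℕ) (b : Fin m → ℂ), (∀ j, IsAlgebraic ℚ (b j)) → LinearIndependent ℚ b →
        (∃ B : Finset ℕ, ∀ n : ℕ, 1 ≤ n → n ∉ E → n ∉ B → Sch b (z n) ∧
          ∀ r N : ℕ, r + N + 1 ≤ m → ∀ (ω₁ ω₂ : ℂ) (s k : ℕ) (t : Fin s → ℂ) (p : Fin k → ℂ),
            ¬ HasTrdeg (bigField ω₁ ω₂ t p) (N + 1) →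
            ∃ P : MvPolynomial (Fin r × Fin m) ℂ, P ≠ 0 ∧ P.IsHomogeneous r ∧
            ∀ c : Fin r → Fin m → ℚ, MvPolynomial.eval (fun q => (c q.1 q.2 : ℂ)) P ≠ 0 →
            ∀ u : Fin r → ℂ, (∀ i, u i = (∑ j, (c i j : ℂ) * b j) * z n) →
              (∀ d, HasTrdeg (bigField ω₁ ω₂ t p) d →
                HasTrdeg (bigField ω₁ ω₂ (Fin.append t u) p) (d + r)) ∧
              (Q1 ω₁ ω₂ t p → Q1 ω₁ ω₂ (Fin.append t u) p)) ∧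
        ∀ (m' : ℕ) (b' : Fin m' → ℂ), (∀ j, IsAlgebraic ℚ (b' j)) →
        ∀ ω₁ ω₂ : ℂ, (ω₂ / ω₁).im ≠ 0 → IsAlgebraic ℚ (60 * gk 4 ω₁ ω₂) →
        IsAlgebraic ℚ (140 * gk 6 ω₁ ω₂) → KIndep ω₁ ω₂ b' →
        ∃ B : Finset ℕ, ∀ n : ℕ, 1 ≤ n → n ∉ E → n ∉ B →
          (∀ j, ∀ a c : ℤ, b' j * z n ≠ (a : ℂ) * ω₁ + (c : ℂ) * ω₂) ∧
          (∃ s : Fin (m + 2 * m') → Option (Fin m ⊕ (Fin m' ⊕ Fin m')),
            AlgebraicIndependent ℚ (fun i => vals ω₁ ω₂ b b' (z n) (s i))) ∧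
          (∀ o, IsAlgebraic ℚ (vals ω₁ ω₂ b b' (z n) o) →
            AlgebraicIndependent ℚ (fun q : {q // q ≠ o} => vals ω₁ ω₂ b b' (z n) q)) ∧
          ∀ r r' N : ℕ, (0 < r → r + N + 1 ≤ m) → (0 < r' → r' + N + 1 ≤ m') →
          ∀ (s k : ℕ) (t : Fin s → ℂ) (p : Fin k → ℂ), ¬ HasTrdeg (bigField ω₁ ω₂ t p) (N + 1) →
          ∃ P : MvPolynomial (Fin r × Fin m ⊕ Fin r' × Fin m') ℂ, P ≠ 0 ∧
            P.IsHomogeneous (r + 2 * r') ∧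
          ∀ (c : Fin r → Fin m → ℚ) (c' : Fin r' → Fin m' → ℚ),
            MvPolynomial.eval (Sum.elim (fun q => (c q.1 q.2 : ℂ))
              (fun q => (c' q.1 q.2 : ℂ))) P ≠ 0 →
          ∀ (u : Fin r → ℂ) (v : Fin r' → ℂ), (∀ i, u i = (∑ j, (c i j : ℂ) * b j) * z n) →
            (∀ i, v i = (∑ j, (c' i j : ℂ) * b' j) * z n) →
            (∀ i, ∀ a c : ℤ, v i ≠ (a : ℂ) * ω₁ + (c : ℂ) * ω₂) ∧
            (∀ d, HasTrdeg (bigField ω₁ ω₂ t p) d →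
              HasTrdeg (bigField ω₁ ω₂ (Fin.append t u) (Fin.append p v)) (d + r + 2 * r')) ∧
            (Q1 ω₁ ω₂ t p → Q1 ω₁ ω₂ (Fin.append t u) (Fin.append p v)) ∧
            (s = 0 → k = 0 → IsCM ω₁ ω₂ → Q1 ω₁ ω₂ (Fin.append t u) (Fin.append p v))) ∧
      -- the case of an algebraic number e^z
      ∀ (m m' : ℕ) (b : Fin m → ℂ) (b' : Fin m' → ℂ), (∀ j, IsAlgebraic ℚ (b j)) →
        (∀ j, IsAlgebraic ℚ (b' j)) → LinearIndependent ℚ (Fin.cons 1 b : Fin (m + 1) → ℂ) →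
        ∀ ω₁ ω₂ : ℂ, (ω₂ / ω₁).im ≠ 0 → IsAlgebraic ℚ (60 * gk 4 ω₁ ω₂) →
        IsAlgebraic ℚ (140 * gk 6 ω₁ ω₂) → KIndep ω₁ ω₂ b' →
        {n : ℕ | 1 ≤ n ∧ n ∉ E ∧ IsAlgebraic ℚ (Complex.exp (z n)) ∧
          ¬ AlgebraicIndependent ℚ (vals ω₁ ω₂ b b' (z n))}.Finite := by
  classical
  refine ⟨le_LQ, fun z hadd hz => ?_⟩
  obtain ⟨E, hE, hEb⟩ := final_ad (ad_RN ad_GX ad_RK) k_RP ad_ZW x_FOadd ad_EX k_CL x_MixRankF
    (fun m b hb => x_FTalg m b hb) k_AZ x_FinalZF TorRank2_pf AbsF_pf x_CM0 z hadd hz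
  refine ⟨E, hE, hEb, fun m m' b b' hb hb' hbi ω₁ ω₂ him h4 h6 hK => ?_⟩
  have hb1 : ∀ j, IsAlgebraic ℚ ((Fin.cons 1 b : Fin (m + 1) → ℂ) j) := by
    intro j
    refine Fin.cases ?_ (fun i => ?_) j
    · rw [Fin.cons_zero]
      exact isAlgebraic_one
    · rw [Fin.cons_succ]
      exact hb i
  obtain ⟨B, hB⟩ := (hEb (m + 1) (Fin.cons 1 b) hb1 hbi).2 m' b' hb' ω₁ ω₂ him h4 h6 hK
  refine (Finset.finite_toSet B).subset ?_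
  rintro n ⟨hn, hnE, hexp, hno⟩
  by_contra hnB
  exact hno (final_exp b b' ω₁ ω₂ (z n) hexp (hB n hn hnE (fun hc => hnB hc)).2.2.1)

end Pool.Agent.Work.MP_8da9ea_nt.AD
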