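import Pool.Agent.Work.MP_8da9ea_nt.SF.Parts
import Pool.Agent.Work.MP_8da9ea_nt.SI.Asm

/-!
# Consequences of Schanuel's inequality for `(b_1 z, …, b_m z)`
-/

set_option autoImplicit false

namespace Pool.Agent.Work.MP_8da9ea_nt.AD

open Pool.Agent.Work.MP_8da9ea_nt Pool.Agent.Work.MP_8da9ea_nt.EB Pool.Agent.Work.MP_327059_nt.GL
  Pool.Agent.Work.MP_8da9ea_nt.S Pool.Agent.Work.MP_8da9ea_nt.EC Pool.Agent.Work.MP_8da9ea_nt.TG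
  Pool.Agent.Work.MP_8da9ea_nt.SF

/-- The consequences for the big field. -/
theorem cns {m : ℕ} (b : Fin m → ℂ) (halg : ∀ k, IsAlgebraic ℚ (b k)) (hb : LinearIndependent ℚ b)
    (z : ℂ) (hSch : Sch b z) :
    (∀ r N : ℕ, r + N + 1 ≤ m → ∀ (ω₁ ω₂ : ℂ) (s k : ℕ) (t : Fin s → ℂ) (p : Fin k → ℂ),
      ¬ HasTrdeg (bigField ω₁ ω₂ t p) (N + 1) →
      ∃ P : MvPolynomial (Fin r × Fin m) ℂ, P ≠ 0 ∧ P.IsHomogeneous r ∧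
      ∀ c : Fin r → Fin m → ℚ, MvPolynomial.eval (fun q => (c q.1 q.2 : ℂ)) P ≠ 0 →
      ∀ u : Fin r → ℂ, (∀ i, u i = (∑ j, (c i j : ℂ) * b j) * z) →
        (∀ d, HasTrdeg (bigField ω₁ ω₂ t p) d →
          HasTrdeg (bigField ω₁ ω₂ (Fin.append t u) p) (d + r)) ∧
        (Q1 ω₁ ω₂ t p → Q1 ω₁ ω₂ (Fin.append t u) p)) ∧
    (∀ S : Set ℂ, S.Countable → ∀ ω₁ ω₂ : ℂ, (ω₂ / ω₁).im ≠ 0 → jInv ω₁ ω₂ ∉ CD.cl S →
      ∀ (s k : ℕ) (t : Fin s → ℂ) (p : Fin k → ℂ) (d : ℕ) (t₀ : Fin d → ℂ),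
        InnT (CD.cl S) t (Fin.append (fun j => b j * z) t₀) →
      ∀ (ρ : ℕ) (y : Fin ρ → ℂ), (∀ i, IsAlgebraic (bigField ω₁ ω₂ t p) (y i)) →
        (∀ i, y i ∉ CD.cl (S ∪ y '' {j | j < i})) →
        (d < max 1 ρ → Q1 ω₁ ω₂ t p) ∧
        ∀ N : ℕ, N + d ≤ tDim t + 3 + kDim2 ω₁ ω₂ p + max 1 ρ →
          HasTrdeg (bigField ω₁ ω₂ t p) N) ∧
    (∀ r : ℕ, r + 2 ≤ m →
      ∃ P : MvPolynomial (Fin r × Fin m) ℂ, P ≠ 0 ∧ P.IsHomogeneous r ∧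
      ∀ c : Fin r → Fin m → ℚ, MvPolynomial.eval (fun q => (c q.1 q.2 : ℂ)) P ≠ 0 →
      ∀ u : Fin r → ℂ, (∀ i, u i = (∑ j, (c i j : ℂ) * b j) * z) →
      ∀ S : Set ℂ, S.Countable → ∀ ω₁ ω₂ : ℂ, (ω₂ / ω₁).im ≠ 0 → jInv ω₁ ω₂ ∉ CD.cl S →
      ∀ (s k : ℕ) (t : Fin s → ℂ) (p : Fin k → ℂ) (d : ℕ) (t₀ : Fin d → ℂ),
        InnT (CD.cl S) t (Fin.append u t₀) →
      ∀ (ρ : ℕ) (y : Fin ρ → ℂ), (∀ i, IsAlgebraic (bigField ω₁ ω₂ t p) (y i)) →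
        (∀ i, y i ∉ CD.cl (S ∪ y '' {j | j < i})) →
        (d ≤ max 1 ρ → Q1 ω₁ ω₂ t p) ∧
        ∀ N : ℕ, N + d ≤ tDim t + 4 + kDim2 ω₁ ω₂ p + max 1 ρ →
          HasTrdeg (bigField ω₁ ω₂ t p) N) ∧
    (∀ r : ℕ, r + 6 ≤ m → ∀ ω₁ ω₂ : ℂ, (ω₂ / ω₁).im ≠ 0 →
      ∃ P : MvPolynomial (Fin r × Fin m) ℂ, P ≠ 0 ∧ P.IsHomogeneous r ∧
      ∀ c : Fin r → Fin m → ℚ, MvPolynomial.eval (fun q => (c q.1 q.2 : ℂ)) P ≠ 0 →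
      ∀ u : Fin r → ℂ, (∀ i, u i = (∑ j, (c i j : ℂ) * b j) * z) →
      ∀ S : Set ℂ, S.Countable → jInv ω₁ ω₂ ∈ CD.cl S →
      ∀ (s k : ℕ) (t : Fin s → ℂ) (p : Fin k → ℂ) (d d' : ℕ) (t₀ : Fin d → ℂ)
        (p₀ : Fin d' → ℂ),
        InnT (CD.cl S) t (Fin.append u t₀) → InnK (CD.cl S) ω₁ ω₂ p p₀ →
      ∀ (ρ : ℕ) (y : Fin ρ → ℂ), (∀ i, IsAlgebraic (bigField ω₁ ω₂ t p) (y i)) →
        (∀ i, y i ∉ CD.cl (S ∪ y '' {j | j < i})) →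
      ∀ R : ℕ, R = max ρ (min 1 (modDim (CD.cl S) t + modDim2 (CD.cl S) ω₁ ω₂ p)) →
        ((open Classical in if IsCM ω₁ ω₂ then 0 else 2) + d + 2 * d' ≤ R →
          Q1 ω₁ ω₂ t p) ∧
        ∀ N : ℕ, N + d + 2 * d' ≤ tDim t + 2 + kDim2 ω₁ ω₂ p + R →
          HasTrdeg (bigField ω₁ ω₂ t p) N) := by
  classical
  have hκ : TrLe 0 b := by
    intro s hs
    exact (hs.transcendental 0) (halg (s 0))
  refine ⟨?_, ?_, ?_, ?_⟩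
  · intro r N hm ω₁ ω₂ s k t p hN
    obtain ⟨θ, hθ⟩ := exists_theta _ N hN
    obtain ⟨P', hP', hP'h, hP'c⟩ := rel_indep b z hSch 0 hκ r N (by omega)
      (bigField ω₁ ω₂ t p) θ hθ
    refine ⟨P', hP', hP'h, fun c hc u hu => ?_⟩
    have h1 : AlgebraicIndependent (bigField ω₁ ω₂ t p) (fun i => Complex.exp (u i)) := by
      have h2 := hP'c c hc
      simp only [← hu] at h2
      exact h2
    refine ⟨fun d hd => bigField_add ω₁ ω₂ t p u h1 d hd, fun hQ => ?_⟩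
    have h2 := bigField_add ω₁ ω₂ t p u h1 _ hQ
    refine h2.mono le_rfl ?_
    have h3 := tDim_append t u
    omega
  · intro S hS ω₁ ω₂ him hj s k t p d t₀ hI ρ y hy hyc
    have hmain : ∀ N : ℕ, N + d ≤ tDim t + 3 + kDim2 ω₁ ω₂ p + max 1 ρ →
        HasTrdeg (bigField ω₁ ω₂ t p) N := fun N hN =>
      genA hb halg hSch hS him hj t p d t₀ hI ρ y hy hyc N hN
    refine ⟨fun hd => ?_, hmain⟩
    unfold Q1
    rw [if_neg (CD.closed_not_CM (CD.closed_cl S) him hj)]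
    exact hmain _ (by omega)
  · intro r hr
    obtain ⟨P', hP', hP'h, h3⟩ := GenLD_pf x_TSel m 0 b z hb hκ hSch r (by omega)
    refine ⟨P', hP', hP'h, fun c hc u hu S hS ω₁ ω₂ him hj s k t p d t₀ hI ρ y hy hyc => ?_⟩
    have h4 := h3 c hc u hu S hS ω₁ ω₂ him hj s k t p d t₀ hI ρ y hy hyc
    refine ⟨fun hd => ?_, h4⟩
    unfold Q1
    rw [if_neg (CD.closed_not_CM (CD.closed_cl S) him hj)]
    exact h4 _ (by omega)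
  · intro r hr ω₁ ω₂ him
    obtain ⟨θ, hθ⟩ := per_theta ω₁ ω₂ him
    obtain ⟨P', hP', hP'h, hP'c⟩ := rel_indep b z hSch 0 hκ r 5 (by omega)
      (bigField 1 (ω₂ / ω₁) (![] : Fin 0 → ℂ) (![] : Fin 0 → ℂ)) θ hθ
    refine ⟨P', hP', hP'h, fun c hc u hu S hS hj s k t p d d' t₀ p₀ hI hIK ρ y hy hyc R hR => ?_⟩
    have h1 : ω₁ ≠ 0 := by
      rintro rfl
      simp at him
    have h2 : AlgebraicIndependent (bigField 1 (ω₂ / ω₁) (![] : Fin 0 → ℂ) (![] : Fin 0 → ℂ))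
        (fun i => Complex.exp (u i)) := by
      have h2 := hP'c c hc
      simp only [← hu] at h2
      exact h2
    have hmain : ∀ N : ℕ, N + d + 2 * d' ≤ tDim t + 2 + kDim2 ω₁ ω₂ p + R →
        HasTrdeg (bigField ω₁ ω₂ t p) N := fun N hN =>
      onT hS him hj u h2 t p d d' t₀ p₀ hI (innE_of h1 hIK) ρ y hy hyc 2
        (GC.per_two_all ω₁ ω₂ him) N (by rw [← hR]; omega)
    refine ⟨fun hd => ?_, hmain⟩
    unfold Q1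
    exact hmain _ (by split_ifs at hd ⊢ <;> omega)

end Pool.Agent.Work.MP_8da9ea_nt.AD
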