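import Pool.Agent.Work.MP_327059_nt.LD.Stmts

/-!
# MP_8da9ea_nt, block AD (captain helper12): almost all integers. Statements with complete proofs (linear algebra)

`LNull`, `Thin` are from `Pool.Agent.Work.MP_327059_nt.LD.Stmts`. Everything of that block is proved and may be imported
(`le_MG`: `LD/J_MG.lean`, `ld_TH`: `LD/I_TH.lean`, `ld_NC`: `LD/I_NC.lean`, `le_PZ`, .. : see `LD/FinalI.lean`).
-/

set_option autoImplicit false

namespace Pool.Agent.Work.MP_8da9ea_nt.AD

open Pool.Agent.Work.MP_327059_nt.LD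

/-- The linear form on the derivations is the evaluation at a differential. -/
def Rep (ω : Derivation ℚ ℂ ℂ →ₗ[ℂ] ℂ) : Prop :=
  ∃ k : KaehlerDifferential ℚ ℂ, ∀ δ : Derivation ℚ ℂ ℂ, δ.liftKaehlerDifferential k = ω δ

/-- Rational combinations of the values `z n`. -/
noncomputable def cz (z : ℕ → ℂ) (c : ℕ →₀ ℚ) : ℂ := c.sum fun n q => q • z n

/-- [GX] (EASY-MEDIUM) Generic derivations. PROOF. As `AD/Core.lean`, theorem `gx` (there for `w i l = (δ ↦ δ (y i l))`, `M = m + 1`; the case `M = 0` is trivial: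
`Matrix.det_isEmpty`). Choose `k i l` with `lift k = w i l`. If `w i` is linearly independent then so is `k i` in `Ω` (apply
`δ.liftKaehlerDifferential` to a relation: `∑ c_l w i l = 0`). If no `w i` is linearly independent there is nothing to prove; otherwise
replace the dependent ones by an independent one (`i0`) and apply `le_MG` to `Ω = KaehlerDifferential ℚ ℂ`: it gives `φ_a : Ω →ₗ[ℂ] ℂ`, and
`D a = (φ a).compDer (KaehlerDifferential.D ℚ ℂ)`, whose lift is `φ a` (`Derivation.liftKaehlerDifferential_comp`, or uniqueness on the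
span of the `D x`: `KaehlerDifferential.span_range_derivation`). -/
def S_GX : Prop := ∀ (M : ℕ) (w : ℕ → Fin M → (Derivation ℚ ℂ ℂ →ₗ[ℂ] ℂ)), (∀ i l, Rep (w i l)) →
  ∃ D : Fin M → Derivation ℚ ℂ ℂ,
    ∀ i, LinearIndependent ℂ (w i) → (Matrix.of fun a l => w i l (D a)).det ≠ 0

/-- [RK] (EASY-MEDIUM) Ranks. PROOF. Let `R = range (pi w) ⊆ ℂ^J`, finite dimensional. (1) The coordinate functionals `x ↦ x j`, restricted to `R`, span the dual of
`R` (a vector of `R` killed by all of them is `0`: `Subspace.dualAnnihilator..`/`Module.Dual` of a finite dimensional space; or: column rank = row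
rank), so there are `finrank R` of them which are linearly independent in the dual of `R` (`exists_linearIndependent`,
`exists_fun_fin_finrank_span_eq`-like), choose `M` of these, `s : Fin M → J`. If `∑ c_l w (s l) = 0` then `∑ c_l x (s l) = 0` for all `x ∈ R`,
so `c = 0`. (2) The `M` vectors `pi w (v a) ∈ R` are linearly independent because their coordinates `s l` form a matrix with
determinant `≠ 0` (`Matrix.linearIndependent_rows_iff_isUnit`, `LinearIndependent.of_comp` with the projection to the coordinates `s l`);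
`LinearIndependent.fintype_card_le_finrank`. -/
def S_RK : Prop := ∀ (V J : Type) [AddCommGroup V] [Module ℂ V] [Fintype J] (w : J → V →ₗ[ℂ] ℂ)
  (M : ℕ), (M ≤ Module.finrank ℂ (LinearMap.range (LinearMap.pi w)) →
    ∃ s : Fin M → J, LinearIndependent ℂ (fun l => w (s l))) ∧
  ∀ (s : Fin M → J) (v : Fin M → V), (Matrix.of fun a l => w (s l) (v a)).det ≠ 0 →
    M ≤ Module.finrank ℂ (LinearMap.range (LinearMap.pi w))

/-- [ZW] (EASY-MEDIUM) Values in a space of finite dimension. PROOF. Let `W'` be a complement of `W` (`Submodule.exists_isCompl`), `ℓ : ℂ →ₗ[ℚ] ℂ` the projection to `W'`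
along `W`, with kernel `W` (`Submodule.linearProjOfIsCompl_ker`, `Submodule.subtype`), `L n = ℓ (z n)`: `L (k n) = L k + L n` for `k, n > 0`. The set
`{p | p.Prime ∧ L p = 0} = {p | p.Prime ∧ z p ∈ W}` is finite (the `z p` are linearly independent and in `W`, which has finite dimension:
`LinearIndependent.finite_of_..`/at most `finrank ℚ W` of them), hence thin (`ld_TH` (d)), so `{p | p.Prime ∧ L p ≠ 0}` is not thin (`ld_TH` (e)). By
`ld_NC` (with `c = 0`) `{n | L n = 0}` is `LNull`, and it contains the given set (a subset of an `LNull` set is `LNull`: `ILD_FN.LNull_mono`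
in `LD/FN.lean`, or directly). -/
def S_ZW : Prop := ∀ (z : ℕ → ℂ), (∀ k n : ℕ, 0 < k → 0 < n → z (k * n) = z k + z n) →
  LinearIndependent ℚ (fun p : Nat.Primes => z p) →
  ∀ W : Submodule ℚ ℂ, FiniteDimensional ℚ W → LNull {n | 1 ≤ n ∧ z n ∈ W}

/-- [RN] (MEDIUM) Ranks for almost all `n`. PROOF (S_GX, S_RK; `le_PZ le_CJ le_SH le_EU`, `le_EG`, `le_DT`, `ld_TH`). As `AD/Core.lean`, theorem `lnull`. Let `M` be given. The pairs
`(c, s)`, `c : ℕ →₀ ℚ`, `s : Fin M → J` are countably many (`exists_surjective_nat`; if `J` is empty and `M > 0` the hypothesis for `Q` = all primes gives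
a contradiction with S_RK (1); or use `ULift`/`Option`). S_GX: `D : Fin M → Der` such that for all `(c, s)` for which the forms
`F (cz z c) (s l)`, `l < M`, are linearly independent, `det (F (cz z c) (s l) (D a)) ≠ 0`. `FZ n : Fin M × J → ℂ`, `FZ n (a, o) = F (z n) o (D a)`, is
completely additive. `le_EG` gives the essential subspace `U`; the primes with `FZ p ∈ U` are infinitely many (`ld_TH`, last part); the
hypothesis gives `c` supported there with rank `≥ M`, S_RK (1) gives `s`, so the determinant is not `0` at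
`u = ((a, o) ↦ F (cz z c) o (D a)) = ∑_p c_p FZ p ∈ U` (`F (q • y) = q • F y` for rational `q` by additivity: `AddMonoidHom` / `map_ratCast_smul`, or
make `F · o` a `ℚ`-linear map by `AddMonoidHom.toRatLinearMap`). `P = rename (a, l) ↦ (a, s l)` of the polynomial of `le_DT M`, homogeneous of degree
`M`. `le_PZ` shows that `{n | 1 ≤ n ∧ eval (FZ n) P = 0}` is `LNull`, and it contains the given set by S_RK (2). -/
def S_RN : Prop := ∀ (z : ℕ → ℂ), (∀ k n : ℕ, 0 < k → 0 < n → z (k * n) = z k + z n) →
  ∀ (J : Type) [Fintype J] (F : ℂ → J → (Derivation ℚ ℂ ℂ →ₗ[ℂ] ℂ)),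
  (∀ y y' o, F (y + y') o = F y o + F y' o) → (∀ y o, Rep (F y o)) →
  ∀ M : ℕ, (∀ Q : Set ℕ, Q.Infinite → (∀ p ∈ Q, p.Prime) → ∃ c : ℕ →₀ ℚ,
    (∀ p ∈ c.support, p ∈ Q) ∧
    M ≤ Module.finrank ℂ (LinearMap.range (LinearMap.pi (F (cz z c))))) →
  LNull {n | 1 ≤ n ∧ Module.finrank ℂ (LinearMap.range (LinearMap.pi (F (z n)))) < M}

end Pool.Agent.Work.MP_8da9ea_nt.AD
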