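import Pool.Agent.Work.MP_327059_nt.LD.FinalI
import Pool.Agent.Work.MP_8da9ea_nt.SI.Asm
import Pool.Agent.Work.MP_8da9ea_nt.AD.StmtsA

/-!
# Schanuel's inequality for almost all values of an additive function

`z : ℕ → ℂ` is completely additive with rationally independent values at the primes. For algebraic
linearly independent `b_1, …, b_m` the `n` for which Schanuel's inequality fails for
`(b_1 z(n), …, b_m z(n))` have logarithmic density `0`.
-/

set_option autoImplicit false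

namespace Pool.Agent.Work.MP_8da9ea_nt.AD

open Pool.Agent.Work.MP_327059_nt.AA Pool.Agent.Work.MP_327059_nt.FL
  Pool.Agent.Work.MP_327059_nt.LD Pool.Agent.Work.MP_8da9ea_nt.S
open MvPolynomial

/-- generic derivations for countably many tuples -/
theorem gx (k : ℕ) (y : ℕ → Fin k → ℂ) : ∃ D : Fin k → Derivation ℚ ℂ ℂ,
    ∀ i, AlgebraicIndependent ℚ (y i) → (Matrix.of fun a j => D a (y i j)).det ≠ 0 := by
  classical
  rcases k with _ | m
  · refine ⟨fun a => a.elim0, fun i _ => ?_⟩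
    rw [Matrix.det_isEmpty]
    exact one_ne_zero
  have hind : ∀ i, AlgebraicIndependent ℚ (y i) →
      LinearIndependent ℂ (fun l => KaehlerDifferential.D ℚ ℂ (y i l)) := by
    intro i h
    rw [Fintype.linearIndependent_iff]
    intro g hg j
    obtain ⟨X, hX⟩ := Pool.Agent.ED.exists_derivation h (fun l => if l = j then (1 : ℂ) else 0)
    have hl : ∀ x : ℂ, X.liftKaehlerDifferential (KaehlerDifferential.D ℚ ℂ x) = X x :=
      fun x => X.liftKaehlerDifferential_comp_D x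
    have h1 := congrArg X.liftKaehlerDifferential hg
    rw [map_sum, map_zero] at h1
    have h2 : ∀ l, X.liftKaehlerDifferential (g l • KaehlerDifferential.D ℚ ℂ (y i l)) =
        if l = j then g j else 0 := by
      intro l
      rw [map_smul, hl, hX l]
      by_cases hlj : l = j
      · subst hlj
        simp
      · simp [hlj]
    rw [Finset.sum_congr rfl fun l _ => h2 l] at h1
    simpa using h1
  by_cases hex : ∃ i, AlgebraicIndependent ℚ (y i)
  · obtain ⟨i0, h0⟩ := hex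
    obtain ⟨φ, hφ⟩ := le_MG _ m
      (fun i => if AlgebraicIndependent ℚ (y i) then
        (fun l => KaehlerDifferential.D ℚ ℂ (y i l)) else
        (fun l => KaehlerDifferential.D ℚ ℂ (y i0 l)))
      (fun i => by
        by_cases hi : AlgebraicIndependent ℚ (y i)
        · simp only [if_pos hi]
          exact hind i hi
        · simp only [if_neg hi]
          exact hind i0 h0)
    refine ⟨fun a => (φ a).compDer (KaehlerDifferential.D ℚ ℂ), fun i hi => ?_⟩
    have h1 := hφ i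
    simp only [if_pos hi] at h1
    exact h1
  · exact ⟨fun _ => 0, fun i hi => absurd ⟨i, hi⟩ hex⟩

/-- the `2 m` numbers -/
noncomputable def num {m : ℕ} (b : Fin m → ℂ) (z : ℂ) : Fin m ⊕ Fin m → ℂ :=
  Sum.elim (fun j => b j * z) (fun j => Complex.exp (b j * z))

/-- the denominators -/
noncomputable def den {m : ℕ} (b : Fin m → ℂ) (z : ℂ) : Fin m ⊕ Fin m → ℂ :=
  Sum.elim (fun _ => 1) (fun j => Complex.exp (b j * z))

theorem den_ne {m : ℕ} (b : Fin m → ℂ) (z : ℂ) (q : Fin m ⊕ Fin m) : den b z q ≠ 0 := by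
  rcases q with j | j
  · exact one_ne_zero
  · exact Complex.exp_ne_zero _

/-- the additive function of a derivation -/
noncomputable def ad {m : ℕ} (b : Fin m → ℂ) (D : Derivation ℚ ℂ ℂ) :
    Fin m ⊕ Fin m → (ℂ →ₗ[ℚ] ℂ) :=
  Sum.elim (fun j => (D : ℂ →ₗ[ℚ] ℂ).comp (LinearMap.mulLeft ℚ (b j))) (fun j => ld (b j) D)

theorem ad_eq {m : ℕ} (b : Fin m → ℂ) (D : Derivation ℚ ℂ ℂ) (q : Fin m ⊕ Fin m) (z : ℂ) :
    ad b D q z * den b z q = D (num b z q) := by
  rcases q with j | j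
  · show D (b j * z) * 1 = D (b j * z)
    rw [mul_one]
  · show ld (b j) D z * Complex.exp (b j * z) = D (Complex.exp (b j * z))
    rw [ld_apply]
    exact div_mul_cancel₀ _ (Complex.exp_ne_zero _)

theorem det_eq {m : ℕ} (b : Fin m → ℂ) (D : Fin m → Derivation ℚ ℂ ℂ)
    (s : Fin m → Fin m ⊕ Fin m) (z : ℂ) :
    (Matrix.of fun a j => ad b (D a) (s j) z).det * ∏ j, den b z (s j) =
      (Matrix.of fun a j => D a (num b z (s j))).det := by
  have h1 : (Matrix.of fun a j => D a (num b z (s j))) =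
      (Matrix.of fun a j => den b z (s j) * (Matrix.of fun a j => ad b (D a) (s j) z) a j) := by
    ext a j
    rw [Matrix.of_apply, Matrix.of_apply, Matrix.of_apply, ← ad_eq, mul_comm]
  rw [h1, Matrix.det_mul_row, mul_comm]

/-- the determinant of dependent numbers is zero -/
theorem det_zero {m : ℕ} (b : Fin m → ℂ) (D : Fin m → Derivation ℚ ℂ ℂ)
    (s : Fin m → Fin m ⊕ Fin m) (z : ℂ)
    (h : ¬ AlgebraicIndependent ℚ (fun i => num b z (s i))) :
    (Matrix.of fun a j => ad b (D a) (s j) z).det = 0 := by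
  obtain ⟨c, hc, hD⟩ := JLE_DZ.relation _ h
  have h1 : (Matrix.of fun a j => D a (num b z (s j))).det = 0 := by
    refine Matrix.exists_mulVec_eq_zero_iff.mp ⟨c, hc, ?_⟩
    funext a
    rw [Matrix.mulVec, dotProduct, Pi.zero_apply, ← hD (D a)]
    refine Finset.sum_congr rfl fun j _ => ?_
    rw [Matrix.of_apply, mul_comm]
  rw [← det_eq] at h1
  exact (mul_eq_zero.mp h1).resolve_right (Finset.prod_ne_zero_iff.mpr fun j _ => den_ne b z (s j))

/-- a good combination over an infinite set of primes -/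
theorem nx (z : ℕ → ℂ) (hz : LinearIndependent ℚ (fun p : Nat.Primes => z p)) {m : ℕ}
    (b : Fin m → ℂ) (hb : ∀ j, IsAlgebraic ℚ (b j)) (hbi : LinearIndependent ℚ b)
    (Q : Set ℕ) (hQ : Q.Infinite) (hQp : ∀ p ∈ Q, p.Prime) :
    ∃ c : ℕ →₀ ℚ, (∀ p ∈ c.support, p ∈ Q) ∧ Sch b (cz z c) := by
  classical
  obtain ⟨n₀, hn⟩ := SI.z_SI m
    (Module.finrank ℚ (IntermediateField.adjoin ℚ (Set.range b)))
  let e : Fin (n₀ + 1) ↪ ℕ :=
    (Fin.valEmbedding.trans (Set.Infinite.natEmbedding Q hQ)).trans (Function.Embedding.subtype _)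
  have heQ : ∀ i, e i ∈ Q := fun i => (Set.Infinite.natEmbedding Q hQ i.val).2
  let f : Fin (n₀ + 1) → Nat.Primes := fun i => ⟨e i, hQp _ (heQ i)⟩
  have hf : Function.Injective f := by
    intro i j h
    have h1 : e i = e j := congrArg (fun x : Nat.Primes => (x : ℕ)) h
    exact e.injective h1
  have hli : LinearIndependent ℚ (fun i => z (e i)) := hz.comp f hf
  obtain ⟨T, hT2, hT3⟩ := hn b hb hbi le_rfl (Submodule.span ℚ (Set.range fun i => z (e i)))
    (FiniteDimensional.span_of_finite ℚ (Set.finite_range _))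
  have hfr : Module.finrank ℚ (Submodule.span ℚ (Set.range fun i => z (e i))) = n₀ + 1 := by
    rw [finrank_span_eq_card hli, Fintype.card_fin]
  obtain ⟨x, hx, hxT⟩ := JLE_NV.avoid (Submodule.span ℚ (Set.range fun i => z (e i)))
    (T : Set (Submodule ℚ ℂ)) T.finite_toSet (by
    intro W hW hle
    have h1 := le_antisymm (hT2 W hW).1 hle
    have h2 := (hT2 W hW).2
    rw [h1, hfr] at h2
    exact Nat.not_succ_le_self n₀ h2)
  obtain ⟨c, hc⟩ := (Submodule.mem_span_range_iff_exists_fun ℚ).1 hx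
  refine ⟨Finsupp.embDomain e (Finsupp.equivFunOnFinite.symm c), ?_, ?_⟩
  · intro p hp
    rw [Finsupp.support_embDomain, Finset.mem_map] at hp
    obtain ⟨i, _, rfl⟩ := hp
    exact heQ i
  · have h1 : cz z (Finsupp.embDomain e (Finsupp.equivFunOnFinite.symm c)) = x := by
      rw [← hc]
      unfold cz
      rw [Finsupp.sum_embDomain, Finsupp.sum_fintype]
      · rfl
      · intro i
        rw [zero_smul]
    rw [h1]
    by_contra hcon
    obtain ⟨W, hW, hxW⟩ := hT3 x hx hcon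
    exact hxT W hW hxW

/-- the function with values in a space of matrices -/
noncomputable def FZ (z : ℕ → ℂ) {m : ℕ} (b : Fin m → ℂ) (D : Fin m → Derivation ℚ ℂ ℂ) (n : ℕ) :
    Fin m × (Fin m ⊕ Fin m) → ℂ := fun x => ad b (D x.1) x.2 (z n)

/-- **Schanuel's inequality for almost all `n`.** -/
theorem lnull (z : ℕ → ℂ) (hadd : ∀ k n : ℕ, 0 < k → 0 < n → z (k * n) = z k + z n)
    (hz : LinearIndependent ℚ (fun p : Nat.Primes => z p)) {m : ℕ}
    (b : Fin m → ℂ) (hb : ∀ j, IsAlgebraic ℚ (b j)) (hbi : LinearIndependent ℚ b) :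
    LNull {n | 1 ≤ n ∧ ¬ Sch b (z n)} := by
  classical
  obtain ⟨en, hen⟩ := exists_surjective_nat ((ℕ →₀ ℚ) × (Fin m → Fin m ⊕ Fin m))
  obtain ⟨D, hD⟩ := gx m (fun i => fun j => num b (cz z (en i).1) ((en i).2 j))
  have hD' : ∀ (c : ℕ →₀ ℚ) (s : Fin m → Fin m ⊕ Fin m),
      AlgebraicIndependent ℚ (fun j => num b (cz z c) (s j)) →
      (Matrix.of fun a j => ad b (D a) (s j) (cz z c)).det ≠ 0 := by
    intro c s hcs h0
    obtain ⟨i, hi⟩ := hen (c, s)
    have h1 := hD i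
    rw [hi] at h1
    have h2 := h1 hcs
    rw [← det_eq, h0, zero_mul] at h2
    exact h2 rfl
  have hFadd : ∀ k n : ℕ, 0 < k → 0 < n → FZ z b D (k * n) = FZ z b D k + FZ z b D n := by
    intro k n hk hn
    funext x
    rw [Pi.add_apply]
    unfold FZ
    rw [hadd k n hk hn, map_add]
  obtain ⟨U, hU1, hU2⟩ := le_EG (Fin m × (Fin m ⊕ Fin m)) (FZ z b D)
  have hQ : {p : ℕ | p.Prime ∧ p ∉ {p : ℕ | p.Prime ∧ FZ z b D p ∉ U}}.Infinite :=
    ld_TH.2.2.2.2.2 _ hU1
  obtain ⟨c, hc1, s, hs⟩ := nx z hz b hb hbi _ hQ (fun p hp => hp.1)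
  have hs' : AlgebraicIndependent ℚ (fun j => num b (cz z c) (s j)) := hs
  obtain ⟨P0, hP01, hP02⟩ := le_DT m
  obtain ⟨f, hf⟩ : ∃ f : Fin m × Fin m → Fin m × (Fin m ⊕ Fin m), f = fun x => (x.1, s x.2) :=
    ⟨_, rfl⟩
  have hPh : (rename f P0).IsHomogeneous m := hP01.rename_isHomogeneous
  have hPe : ∀ x : Fin m × (Fin m ⊕ Fin m) → ℂ,
      eval x (rename f P0) = (Matrix.of fun a j => x (a, s j)).det := by
    intro x
    rw [eval_rename, hP02, hf]
    rfl
  have hmem : (fun x : Fin m × (Fin m ⊕ Fin m) => ad b (D x.1) x.2 (cz z c)) ∈ U := by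
    have e1 : (fun x : Fin m × (Fin m ⊕ Fin m) => ad b (D x.1) x.2 (cz z c)) =
        ∑ p ∈ c.support, ((c p : ℂ)) • FZ z b D p := by
      funext x
      rw [Finset.sum_apply]
      show ad b (D x.1) x.2 (cz z c) = _
      unfold cz Finsupp.sum
      rw [map_sum]
      refine Finset.sum_congr rfl fun p _ => ?_
      rw [map_smul, Rat.smul_def]
      rfl
    rw [e1]
    refine Submodule.sum_mem _ fun p hp => Submodule.smul_mem _ _ ?_
    by_contra hcon
    exact (hc1 p hp).2 ⟨(hc1 p hp).1, hcon⟩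
  have hne : eval (fun x : Fin m × (Fin m ⊕ Fin m) => ad b (D x.1) x.2 (cz z c))
      (homogeneousComponent m (rename f P0)) ≠ 0 := by
    rw [homogeneousComponent_of_mem ((mem_homogeneousSubmodule _ _).mpr hPh), if_pos rfl, hPe]
    exact hD' c s hs'
  have hmain := (le_PZ le_CJ le_SH le_EU) (Fin m × (Fin m ⊕ Fin m)) (FZ z b D) U hFadd hU1 hU2 m
    (rename f P0) hPh.totalDegree_le ⟨_, hmem, hne⟩
  refine ILD_FN.LNull_mono ?_ hmain
  rintro n ⟨hn1, hn2⟩
  refine ⟨hn1, ?_⟩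
  rw [hPe]
  refine det_zero b D s (z n) ?_
  intro hcon
  exact hn2 ⟨s, hcon⟩

open Classical in
/-- one exceptional set for all `m`, `b` -/
theorem oneSet (z : ℕ → ℂ) (hadd : ∀ k n : ℕ, 0 < k → 0 < n → z (k * n) = z k + z n)
    (hz : LinearIndependent ℚ (fun p : Nat.Primes => z p)) :
    ∃ E : Set ℕ, Filter.Tendsto (fun N : ℕ => (∑ n ∈ Finset.Icc 1 N,
        E.indicator (fun n => (1 : ℝ) / n) n) / Real.log N) Filter.atTop (nhds 0) ∧
      ∀ (m : ℕ) (b : Fin m → ℂ), (∀ j, IsAlgebraic ℚ (b j)) → LinearIndependent ℚ b →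
        {n : ℕ | 1 ≤ n ∧ n ∉ E ∧ ¬ Sch b (z n)}.Finite := by
  have hc1 : Countable {z : ℂ // IsAlgebraic ℚ z} := (Algebraic.countable ℚ ℂ).to_subtype
  have hne : Nonempty (Σ m : ℕ, (Fin m → {z : ℂ // IsAlgebraic ℚ z})) := ⟨⟨0, fun j => j.elim0⟩⟩
  obtain ⟨en, hen⟩ := exists_surjective_nat (Σ m : ℕ, (Fin m → {z : ℂ // IsAlgebraic ℚ z}))
  obtain ⟨A, hA⟩ : ∃ A : ℕ → Set ℕ, A = fun i =>
      {n : ℕ | (LinearIndependent ℚ (fun j => ((en i).2 j : ℂ))) ∧
        (1 ≤ n ∧ ¬ Sch (fun j => ((en i).2 j : ℂ)) (z n))} := ⟨_, rfl⟩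
  have hnull : ∀ i, LNull (A i) := by
    intro i
    rw [hA]
    by_cases h : LinearIndependent ℚ (fun j => ((en i).2 j : ℂ))
    · refine ILD_FN.LNull_mono ?_ (lnull z hadd hz (fun j => ((en i).2 j : ℂ))
        (fun j => ((en i).2 j).2) h)
      rintro n ⟨_, hn⟩
      exact hn
    · refine ILD_FN.LNull_mono (B := ∅) ?_ ?_
      · rintro n ⟨hn, _⟩
        exact absurd hn h
      · intro ε hε
        refine ⟨0, fun N => ?_⟩
        unfold ws ind
        have h0 : ∀ n ∈ Finset.Icc 1 N,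
            (Set.indicator (∅ : Set ℕ) (fun _ => (1 : ℝ)) n) / n = 0 := by
          intro n _
          rw [Set.indicator_empty, zero_div]
        rw [Finset.sum_eq_zero h0, add_zero]
        exact mul_nonneg hε.le (Real.log_natCast_nonneg N)
  obtain ⟨E, hE1, hE2⟩ := le_PI A hnull
  refine ⟨E, ?_, ?_⟩
  · exact tendsto_of_LNull E (ILD_FN.LNull_mono (fun n hn => hn.2) hE1)
  · intro m b hb hlin
    obtain ⟨i, hi⟩ := hen ⟨m, fun j => ⟨b j, hb j⟩⟩
    refine (hE2 i).subset ?_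
    rintro n ⟨hn1, hn2, hn3⟩
    refine ⟨?_, hn2⟩
    rw [hA]
    show (LinearIndependent ℚ (fun j => ((en i).2 j : ℂ))) ∧
        (1 ≤ n ∧ ¬ Sch (fun j => ((en i).2 j : ℂ)) (z n))
    rw [hi]
    exact ⟨hlin, hn1, hn3⟩

end Pool.Agent.Work.MP_8da9ea_nt.AD
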