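import Pool.Agent.Work.MP_8da9ea_nt.AD.LM
import Pool.Agent.Work.MP_8da9ea_nt.AD.Cons
import Pool.Agent.Work.MP_8da9ea_nt.AD.Core
import Pool.Agent.Work.MP_8da9ea_nt.EB.Final

/-!
# The elliptico-toric inequality for almost all integers: the final theorem from the items
-/

set_option autoImplicit false

namespace Pool.Agent.Work.MP_8da9ea_nt.AD

open MvPolynomial Pool.Agent.Work.MP_327059_nt.GL Pool.Agent.Work.MP_8da9ea_nt.S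
  Pool.Agent.Work.MP_8da9ea_nt.EB Pool.Agent.Work.MP_8da9ea_nt.MX Pool.Agent.Work.MP_327059_nt.LD
  EB.Final

/-- `± ω₂ / ω₁`, with positive imaginary part. -/
noncomputable def tq (ω₁ ω₂ : ℂ) : ℂ :=
  open Classical in if 0 < (ω₂ / ω₁).im then ω₂ / ω₁ else -(ω₂ / ω₁)

theorem tq_pos {ω₁ ω₂ : ℂ} (him : (ω₂ / ω₁).im ≠ 0) : 0 < (tq ω₁ ω₂).im := by
  unfold tq
  split_ifs with h
  · exact h
  · rw [Complex.neg_im]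
    have h1 : (ω₂ / ω₁).im < 0 := lt_of_le_of_ne (not_lt.1 h) him
    linarith

theorem tq_or {ω₁ : ℂ} (ω₂ : ℂ) (h1 : ω₁ ≠ 0) :
    ω₂ = ω₁ * tq ω₁ ω₂ ∨ ω₂ = -(ω₁ * tq ω₁ ω₂) := by
  unfold tq
  split_ifs with h
  · left
    field_simp
  · right
    field_simp

theorem ne_of_im {ω₁ ω₂ : ℂ} (him : (ω₂ / ω₁).im ≠ 0) : ω₁ ≠ 0 := by
  rintro rfl
  simp at him

theorem nrm_tq {ω₁ ω₂ : ℂ} (him : (ω₂ / ω₁).im ≠ 0) (h4 : IsAlgebraic ℚ (60 * gk 4 ω₁ ω₂))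
    (h6 : IsAlgebraic ℚ (140 * gk 6 ω₁ ω₂)) : Nrm (tq ω₁ ω₂) ω₁⁻¹ := by
  have h1 : ω₁ ≠ 0 := ne_of_im him
  have hω := tq_or ω₂ h1
  have hg4 : gk 4 1 (tq ω₁ ω₂) = ω₁ ^ 4 * gk 4 ω₁ ω₂ := by
    generalize tq ω₁ ω₂ = τ at hω
    rcases hω with h | h
    · rw [h, gk_norm h1]
    · rw [h, gk_N, gk_norm h1]
  have hg6 : gk 6 1 (tq ω₁ ω₂) = ω₁ ^ 6 * gk 6 ω₁ ω₂ := by
    generalize tq ω₁ ω₂ = τ at hω
    rcases hω with h | h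
    · rw [h, gk_norm h1]
    · rw [h, gk_N, gk_norm h1]
  refine ⟨tq_pos him, inv_ne_zero h1, ?_, ?_⟩
  · have h3 : ω₁⁻¹ ^ 4 * gg2 (tq ω₁ ω₂) = 60 * gk 4 ω₁ ω₂ := by
      unfold gg2
      rw [hg4]
      field_simp
    rw [h3]
    exact h4
  · have h3 : ω₁⁻¹ ^ 6 * gg3 (tq ω₁ ω₂) = 140 * gk 6 ω₁ ω₂ := by
      unfold gg3
      rw [hg6]
      field_simp
    rw [h3]
    exact h6

theorem kli_tq {ω₁ ω₂ : ℂ} (h1 : ω₁ ≠ 0) {m' : ℕ} (b' : Fin m' → ℂ) (hK : KIndep ω₁ ω₂ b') :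
    KLI (tq ω₁ ω₂) b' :=
  fun g hg h0 => hK g (fun j => isE_of (tq_or ω₂ h1) (hg j)) h0

theorem kli_ne {τ : ℂ} {m' : ℕ} (b' : Fin m' → ℂ) (hK : KLI τ b') (j : Fin m') : b' j ≠ 0 := by
  classical
  intro h0
  have h1 : IsE τ 0 := ⟨1, one_ne_zero, by
    rw [mul_zero]; exact mem_Lam.2 ⟨0, 0, by simp⟩, by
    rw [mul_zero, zero_mul]; exact mem_Lam.2 ⟨0, 0, by simp⟩⟩
  have h2 : IsE τ 1 := ⟨1, one_ne_zero, mem_Lam.2 ⟨1, 0, by simp⟩, mem_Lam.2 ⟨0, 1, by simp⟩⟩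
  have h3 := hK (fun i => if i = j then 1 else 0) (fun i => by
    show IsE τ (if i = j then 1 else 0)
    split_ifs
    · exact h2
    · exact h1) (by
      refine Finset.sum_eq_zero fun i _ => ?_
      by_cases hij : i = j
      · subst hij
        rw [h0, mul_zero]
      · rw [if_neg hij, zero_mul])
  have h4 := congrFun h3 j
  simp at h4

/-- The conditions on the ranks at the point `z`. -/
def RkOK {m m' : ℕ} (b : Fin m → ℂ) (b' : Fin m' → ℂ) (ω₁ ω₂ z : ℂ) : Prop :=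
  (∀ j, ω₁⁻¹ * (b' j * z) ∉ Lam (tq ω₁ ω₂)) ∧ m + m' ≤ rA2 (tq ω₁ ω₂) ω₁⁻¹ b b' z ⊤ ∧
    m + 2 * m' ≤ rB2 (tq ω₁ ω₂) ω₁⁻¹ b b' z ⊤

theorem rk_null (hRN : S_RN) (hRP : S_RP) (hZW : S_ZW) (hFO : S_FOadd) (hEX : S_EX)
    (hR : S_MixRankF) (hFT : ∀ (m : ℕ) (b : Fin m → ℂ), (∀ j, IsAlgebraic ℚ (b j)) → FT 1 b)
    (z : ℕ → ℂ) (hadd : ∀ k n : ℕ, 0 < k → 0 < n → z (k * n) = z k + z n)
    (hz : LinearIndependent ℚ (fun p : Nat.Primes => z p)) {m m' : ℕ} (b : Fin m → ℂ)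
    (b' : Fin m' → ℂ) (hb : ∀ j, IsAlgebraic ℚ (b j)) (hb' : ∀ j, IsAlgebraic ℚ (b' j))
    (hbi : LinearIndependent ℚ b) (ω₁ ω₂ : ℂ) (him : (ω₂ / ω₁).im ≠ 0)
    (h4 : IsAlgebraic ℚ (60 * gk 4 ω₁ ω₂)) (h6 : IsAlgebraic ℚ (140 * gk 6 ω₁ ω₂))
    (hK : KIndep ω₁ ω₂ b') : LNull {n | 1 ≤ n ∧ ¬ RkOK b b' ω₁ ω₂ (z n)} := by
  have hN := nrm_tq him h4 h6
  have hKL := kli_tq (ne_of_im him) b' hK
  exact ad_LM hRN hRP hZW hFO z hadd hz _ _ m m' b b' hN (kli_ne b' hKL)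
    (hEX hR hFT z hz _ _ m m' b b' hN hb hb' hbi hKL)

/-- one set for countably many sets of density zero -/
theorem oneE {T : Type} [Countable T] (A : T → Set ℕ) (hA : ∀ i, LNull (A i)) :
    ∃ E : Set ℕ, LNull E ∧ ∀ i, (A i \ E).Finite := by
  obtain ⟨en, hen⟩ := exists_surjective_nat (Option T)
  obtain ⟨E, hE1, hE2⟩ := le_PI (fun i => (en i).elim ∅ A) (by
    intro i
    rcases en i with _ | j
    · exact LNull_empty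
    · exact hA j)
  refine ⟨E, hE1, fun i => ?_⟩
  obtain ⟨k, hk⟩ := hen (some i)
  have h1 := hE2 k
  rw [hk] at h1
  exact h1

/-- The numbers `z`, `e^{b_j z}`, `℘(b'_j z)`, `ζ(b'_j z)`. -/
noncomputable def vals (ω₁ ω₂ : ℂ) {m m' : ℕ} (b : Fin m → ℂ) (b' : Fin m' → ℂ) (z : ℂ) :
    Option (Fin m ⊕ (Fin m' ⊕ Fin m')) → ℂ := fun o =>
  o.elim z (Sum.elim (fun j => Complex.exp (b j * z))
    (Sum.elim (fun j => wp ω₁ ω₂ (b' j * z)) (fun j => zt ω₁ ω₂ (b' j * z))))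

/-- The base case for complex multiplication (Chudnovsky). -/
def S_CM0 : Prop := ∀ ω₁ ω₂ : ℂ, (ω₂ / ω₁).im ≠ 0 → IsCM ω₁ ω₂ → IsAlgebraic ℚ (jInv ω₁ ω₂) →
  ∀ (t : Fin 0 → ℂ) (p : Fin 0 → ℂ), Q1 ω₁ ω₂ t p

/-- the numbers which are algebraic -/
abbrev Alg : Type := {z : ℂ // IsAlgebraic ℚ z}

/-- the bases of lattices with algebraic invariants -/
abbrev LatA : Type := {q : ℂ × ℂ // q ∈ {q : ℂ × ℂ | (q.2 / q.1).im ≠ 0 ∧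
  IsAlgebraic ℚ (60 * gk 4 q.1 q.2) ∧ IsAlgebraic ℚ (140 * gk 6 q.1 q.2)}}

open Classical in
/-- **One set for everything.** -/
theorem oneAll (hRN : S_RN) (hRP : S_RP) (hZW : S_ZW) (hFO : S_FOadd) (hEX : S_EX) (hCL : S_CL)
    (hR : S_MixRankF) (hFT : ∀ (m : ℕ) (b : Fin m → ℂ), (∀ j, IsAlgebraic ℚ (b j)) → FT 1 b)
    (z : ℕ → ℂ) (hadd : ∀ k n : ℕ, 0 < k → 0 < n → z (k * n) = z k + z n)
    (hz : LinearIndependent ℚ (fun p : Nat.Primes => z p)) :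
    ∃ E : Set ℕ, Filter.Tendsto (fun N : ℕ => (∑ n ∈ Finset.Icc 1 N,
        E.indicator (fun n => (1 : ℝ) / n) n) / Real.log N) Filter.atTop (nhds 0) ∧
      (∀ (m : ℕ) (b : Fin m → ℂ), (∀ j, IsAlgebraic ℚ (b j)) → LinearIndependent ℚ b →
        {n : ℕ | 1 ≤ n ∧ n ∉ E ∧ ¬ Sch b (z n)}.Finite) ∧
      ∀ (m m' : ℕ) (b : Fin m → ℂ) (b' : Fin m' → ℂ), (∀ j, IsAlgebraic ℚ (b j)) →
        (∀ j, IsAlgebraic ℚ (b' j)) → LinearIndependent ℚ b →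
        ∀ ω₁ ω₂ : ℂ, (ω₂ / ω₁).im ≠ 0 → IsAlgebraic ℚ (60 * gk 4 ω₁ ω₂) →
        IsAlgebraic ℚ (140 * gk 6 ω₁ ω₂) → KIndep ω₁ ω₂ b' →
        {n : ℕ | 1 ≤ n ∧ n ∉ E ∧ ¬ RkOK b b' ω₁ ω₂ (z n)}.Finite := by
  have hc1 : Countable Alg := (Algebraic.countable ℚ ℂ).to_subtype
  have hc2 : Countable LatA := hCL.to_subtype
  obtain ⟨A, hA⟩ : ∃ A : (Σ m : ℕ, (Fin m → Alg)) ⊕
      (Σ m : ℕ, Σ m' : ℕ, (Fin m → Alg) × (Fin m' → Alg) × LatA) → Set ℕ, A = Sum.elim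
      (fun i => {n : ℕ | LinearIndependent ℚ (fun j => (i.2 j : ℂ)) ∧
        (1 ≤ n ∧ ¬ Sch (fun j => (i.2 j : ℂ)) (z n))})
      (fun i => {n : ℕ | (LinearIndependent ℚ (fun j => (i.2.2.1 j : ℂ)) ∧
        KIndep i.2.2.2.2.1.1 i.2.2.2.2.1.2 (fun j => (i.2.2.2.1 j : ℂ))) ∧
        (1 ≤ n ∧ ¬ RkOK (fun j => (i.2.2.1 j : ℂ)) (fun j => (i.2.2.2.1 j : ℂ)) i.2.2.2.2.1.1
          i.2.2.2.2.1.2 (z n))}) := ⟨_, rfl⟩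
  obtain ⟨E, hE1, hE2⟩ := oneE A (by
    rw [hA]
    rintro (i | i)
    · by_cases h : LinearIndependent ℚ (fun j => (i.2 j : ℂ))
      · refine ILD_FN.LNull_mono ?_ (lnull z hadd hz (fun j => (i.2 j : ℂ)) (fun j => (i.2 j).2) h)
        rintro n ⟨_, hn⟩
        exact hn
      · refine ILD_FN.LNull_mono ?_ LNull_empty
        rintro n ⟨hn, _⟩
        exact absurd hn h
    · by_cases h : LinearIndependent ℚ (fun j => (i.2.2.1 j : ℂ)) ∧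
          KIndep i.2.2.2.2.1.1 i.2.2.2.2.1.2 (fun j => (i.2.2.2.1 j : ℂ))
      · refine ILD_FN.LNull_mono ?_ (rk_null hRN hRP hZW hFO hEX hR hFT z hadd hz
          (fun j => (i.2.2.1 j : ℂ)) (fun j => (i.2.2.2.1 j : ℂ)) (fun j => (i.2.2.1 j).2)
          (fun j => (i.2.2.2.1 j).2) h.1 _ _ i.2.2.2.2.2.1 i.2.2.2.2.2.2.1 i.2.2.2.2.2.2.2 h.2)
        rintro n ⟨_, hn⟩
        exact hn
      · refine ILD_FN.LNull_mono ?_ LNull_empty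
        rintro n ⟨hn, _⟩
        exact absurd hn h)
  refine ⟨E, tendsto_of_LNull E (ILD_FN.LNull_mono (fun n hn => hn.2) hE1), ?_, ?_⟩
  · intro m b hb hlin
    refine (hE2 (Sum.inl ⟨m, fun j => ⟨b j, hb j⟩⟩)).subset ?_
    rintro n ⟨hn1, hn2, hn3⟩
    refine ⟨?_, hn2⟩
    rw [hA]
    exact ⟨hlin, hn1, hn3⟩
  · intro m m' b b' hb hb' hlin ω₁ ω₂ him h4 h6 hK
    refine (hE2 (Sum.inr ⟨m, m', fun j => ⟨b j, hb j⟩, fun j => ⟨b' j, hb' j⟩,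
      ⟨(ω₁, ω₂), him, h4, h6⟩⟩)).subset ?_
    rintro n ⟨hn1, hn2, hn3⟩
    refine ⟨?_, hn2⟩
    rw [hA]
    exact ⟨⟨hlin, hK⟩, hn1, hn3⟩

end Pool.Agent.Work.MP_8da9ea_nt.AD
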