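import Pool.Agent.Work.MP_8da9ea_nt.AD.Fin
import Pool.Agent.Work.MP_8da9ea_nt.AD.Ext
import Pool.Agent.Work.MP_327059_nt.LD.J_LQ

/-!
# The elliptico-toric inequality for almost all integers: the final theorem from the items
-/

set_option autoImplicit false

namespace Pool.Agent.Work.MP_8da9ea_nt.AD

open MvPolynomial Pool.Agent.Work.MP_327059_nt.GL Pool.Agent.Work.MP_8da9ea_nt.S
  Pool.Agent.Work.MP_8da9ea_nt.EB Pool.Agent.Work.MP_8da9ea_nt.MX Pool.Agent.Work.MP_327059_nt.LD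

theorem jInv_alg {ω₁ ω₂ : ℂ} (h4 : IsAlgebraic ℚ (60 * gk 4 ω₁ ω₂))
    (h6 : IsAlgebraic ℚ (140 * gk 6 ω₁ ω₂)) : IsAlgebraic ℚ (jInv ω₁ ω₂) := by
  have h : jInv ω₁ ω₂ = 1728 * (60 * gk 4 ω₁ ω₂) ^ 3 /
      ((60 * gk 4 ω₁ ω₂) ^ 3 - 27 * (140 * gk 6 ω₁ ω₂) ^ 2) := rfl
  have h1 : IsAlgebraic ℚ (1728 : ℂ) := by
    have := isAlgebraic_algebraMap (R := ℚ) (A := ℂ) (1728 : ℚ)
    simpa using this
  have h2 : IsAlgebraic ℚ (27 : ℂ) := by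
    have := isAlgebraic_algebraMap (R := ℚ) (A := ℂ) (27 : ℚ)
    simpa using this
  rw [h, div_eq_mul_inv]
  exact (h1.mul (h4.pow 3)).mul ((h4.pow 3).sub (h2.mul (h6.pow 2))).inv

/-- **The final theorem**, from the items. -/
theorem final_ad (hRN : S_RN) (hRP : S_RP) (hZW : S_ZW) (hFO : S_FOadd) (hEX : S_EX) (hCL : S_CL)
    (hR : S_MixRankF) (hFT : ∀ (m : ℕ) (b : Fin m → ℂ), (∀ j, IsAlgebraic ℚ (b j)) → FT 1 b)
    (hAZ : S_AZ) (hFZ : S_FinalZF) (hTR : S_TorRank2) (hAb : S_AbsF) (hCM : S_CM0)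
    (z : ℕ → ℂ) (hadd : ∀ k n : ℕ, 0 < k → 0 < n → z (k * n) = z k + z n)
    (hz : LinearIndependent ℚ (fun p : Nat.Primes => z p)) :
    ∃ E : Set ℕ, Filter.Tendsto (fun N : ℕ => (∑ n ∈ Finset.Icc 1 N,
        E.indicator (fun n => (1 : ℝ) / n) n) / Real.log N) Filter.atTop (nhds 0) ∧
      ∀ (m : ℕ) (b : Fin m → ℂ), (∀ j, IsAlgebraic ℚ (b j)) → LinearIndependent ℚ b →
        (∃ B : Finset ℕ, ∀ n : ℕ, 1 ≤ n → n ∉ E → n ∉ B → Sch b (z n) ∧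
          ∀ r N : ℕ, r + N + 1 ≤ m → ∀ (ω₁ ω₂ : ℂ) (s k : ℕ) (t : Fin s → ℂ) (p : Fin k → ℂ),
            ¬ HasTrdeg (bigField ω₁ ω₂ t p) (N + 1) →
            ∃ P : MvPolynomial (Fin r × Fin m) ℂ, P ≠ 0 ∧ P.IsHomogeneous r ∧
            ∀ c : Fin r → Fin m → ℚ, MvPolynomial.eval (fun q => (c q.1 q.2 : ℂ)) P ≠ 0 →
            ∀ u : Fin r → ℂ, (∀ i, u i = (∑ j, (c i j : ℂ) * b j) * z n) →
              (∀ d, HasTrdeg (bigField ω₁ ω₂ t p) d →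
                HasTrdeg (bigField ω₁ ω₂ (Fin.append t u) p) (d + r)) ∧
              (Q1 ω₁ ω₂ t p → Q1 ω₁ ω₂ (Fin.append t u) p)) ∧
        ∀ (m' : ℕ) (b' : Fin m' → ℂ), (∀ j, IsAlgebraic ℚ (b' j)) →
        ∀ ω₁ ω₂ : ℂ, (ω₂ / ω₁).im ≠ 0 → IsAlgebraic ℚ (60 * gk 4 ω₁ ω₂) →
        IsAlgebraic ℚ (140 * gk 6 ω₁ ω₂) → KIndep ω₁ ω₂ b' →
        ∃ B : Finset ℕ, ∀ n : ℕ, 1 ≤ n → n ∉ E → n ∉ B →
          (∀ j, ∀ a c : ℤ, b' j * z n ≠ (a : ℂ) * ω₁ + (c : ℂ) * ω₂) ∧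
          (∃ s : Fin (m + 2 * m') → Option (Fin m ⊕ (Fin m' ⊕ Fin m')),
            AlgebraicIndependent ℚ (fun i => vals ω₁ ω₂ b b' (z n) (s i))) ∧
          (∀ o, IsAlgebraic ℚ (vals ω₁ ω₂ b b' (z n) o) →
            AlgebraicIndependent ℚ (fun q : {q // q ≠ o} => vals ω₁ ω₂ b b' (z n) q)) ∧
          ∀ r r' N : ℕ, (0 < r → r + N + 1 ≤ m) → (0 < r' → r' + N + 1 ≤ m') →
          ∀ (s k : ℕ) (t : Fin s → ℂ) (p : Fin k → ℂ), ¬ HasTrdeg (bigField ω₁ ω₂ t p) (N + 1) →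
          ∃ P : MvPolynomial (Fin r × Fin m ⊕ Fin r' × Fin m') ℂ, P ≠ 0 ∧
            P.IsHomogeneous (r + 2 * r') ∧
          ∀ (c : Fin r → Fin m → ℚ) (c' : Fin r' → Fin m' → ℚ),
            MvPolynomial.eval (Sum.elim (fun q => (c q.1 q.2 : ℂ))
              (fun q => (c' q.1 q.2 : ℂ))) P ≠ 0 →
          ∀ (u : Fin r → ℂ) (v : Fin r' → ℂ), (∀ i, u i = (∑ j, (c i j : ℂ) * b j) * z n) →
            (∀ i, v i = (∑ j, (c' i j : ℂ) * b' j) * z n) →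
            (∀ i, ∀ a c : ℤ, v i ≠ (a : ℂ) * ω₁ + (c : ℂ) * ω₂) ∧
            (∀ d, HasTrdeg (bigField ω₁ ω₂ t p) d →
              HasTrdeg (bigField ω₁ ω₂ (Fin.append t u) (Fin.append p v)) (d + r + 2 * r')) ∧
            (Q1 ω₁ ω₂ t p → Q1 ω₁ ω₂ (Fin.append t u) (Fin.append p v)) ∧
            (s = 0 → k = 0 → IsCM ω₁ ω₂ → Q1 ω₁ ω₂ (Fin.append t u) (Fin.append p v)) := by
  classical
  obtain ⟨E, hE, hE1, hE2⟩ := oneAll hRN hRP hZW hFO hEX hCL hR hFT z hadd hz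
  refine ⟨E, hE, fun m b hb hbi => ⟨?_, ?_⟩⟩
  · refine ⟨(hE1 m b hb hbi).toFinset, fun n hn hnE hnB => ?_⟩
    have hSch : Sch b (z n) := by
      by_contra hcon
      exact hnB ((hE1 m b hb hbi).mem_toFinset.2 ⟨hn, hnE, hcon⟩)
    exact ⟨hSch, (cns b hb hbi (z n) hSch).1⟩
  · intro m' b' hb' ω₁ ω₂ him h4 h6 hK
    have hF1 := hE1 m b hb hbi
    have hF2 := hE2 m m' b b' hb hb' hbi ω₁ ω₂ him h4 h6 hK
    refine ⟨hF1.toFinset ∪ hF2.toFinset, fun n hn hnE hnB => ?_⟩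
    rw [Finset.notMem_union] at hnB
    have hSch : Sch b (z n) := by
      by_contra hcon
      exact hnB.1 (hF1.mem_toFinset.2 ⟨hn, hnE, hcon⟩)
    have hRk : RkOK b b' ω₁ ω₂ (z n) := by
      by_contra hcon
      exact hnB.2 (hF2.mem_toFinset.2 ⟨hn, hnE, hcon⟩)
    obtain ⟨a1, a2, -, a4⟩ := hAZ hFZ hTR hAb m m' b b' (z n) ω₁ ω₂ (tq ω₁ ω₂) hb hb' hSch
      (ne_of_im him) (nrm_tq him h4 h6) (tq_or ω₂ (ne_of_im him)) hRk.1 hRk.2.1 hRk.2.2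
    refine ⟨a1, a2, fun o ho => ?_, fun r r' N hr hr' s k t p hN => ?_⟩
    · obtain ⟨s, hs⟩ := a2
      exact all_but (vals ω₁ ω₂ b b' (z n)) s hs (by simp; ring) o ho
    · obtain ⟨P, hP, hPh, hPc⟩ := a4 r r' N hr hr' s k t p hN
      refine ⟨P, hP, hPh, fun c c' hc u v hu hv => ?_⟩
      obtain ⟨i1, i2, i3⟩ := hPc c c' hc u v hu hv
      refine ⟨i1, i2, i3, fun hs hk hcm => ?_⟩
      subst hs
      subst hk
      exact i3 (hCM ω₁ ω₂ him hcm (jInv_alg h4 h6) t p)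

/-- The case of an algebraic number `e^z`. -/
theorem final_exp {m m' : ℕ} (b : Fin m → ℂ) (b' : Fin m' → ℂ) (ω₁ ω₂ z : ℂ)
    (hz : IsAlgebraic ℚ (Complex.exp z))
    (h : ∀ o, IsAlgebraic ℚ (vals ω₁ ω₂ (Fin.cons 1 b : Fin (m + 1) → ℂ) b' z o) →
      AlgebraicIndependent ℚ
        (fun q : {q // q ≠ o} => vals ω₁ ω₂ (Fin.cons 1 b : Fin (m + 1) → ℂ) b' z q)) :
    AlgebraicIndependent ℚ (vals ω₁ ω₂ b b' z) := by
  classical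
  have h1 := h (some (Sum.inl 0)) (by
    show IsAlgebraic ℚ (Complex.exp ((Fin.cons 1 b : Fin (m + 1) → ℂ) 0 * z))
    rw [Fin.cons_zero, one_mul]
    exact hz)
  let g : Option (Fin m ⊕ (Fin m' ⊕ Fin m')) →
      {q : Option (Fin (m + 1) ⊕ (Fin m' ⊕ Fin m')) // q ≠ some (Sum.inl 0)} := fun o =>
    match o with
    | none => ⟨none, by simp⟩
    | some (Sum.inl j) => ⟨some (Sum.inl j.succ), by simp⟩
    | some (Sum.inr q) => ⟨some (Sum.inr q), by simp⟩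
  have hg : Function.Injective g := by
    intro x y hxy
    have hxy' := congrArg Subtype.val hxy
    rcases x with _ | (x | x) <;> rcases y with _ | (y | y) <;> simp [g] at hxy' ⊢
    · exact hxy'
    · exact hxy'
  have h2 := h1.comp g hg
  have h3 : (fun q : {q // q ≠ some (Sum.inl 0)} =>
      vals ω₁ ω₂ (Fin.cons 1 b : Fin (m + 1) → ℂ) b' z q) ∘ g = vals ω₁ ω₂ b b' z := by
    funext x
    rcases x with _ | (x | x)
    · rfl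
    · rfl
    · rfl
  rw [h3] at h2
  exact h2

end Pool.Agent.Work.MP_8da9ea_nt.AD
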