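import Pool.Agent.Work.MP_8da9ea_nt.AD.StmtsB
import Pool.Agent.Work.MP_8da9ea_nt.EB.Final

/-!
# MP_8da9ea_nt, block AD, item AZ: from the ranks to the conclusions at one point (helper97)
-/

set_option autoImplicit false

namespace Pool.Agent.Work.MP_8da9ea_nt.AD

open MvPolynomial Pool.Agent.Work.MP_327059_nt.GL Pool.Agent.Work.MP_8da9ea_nt.S
  Pool.Agent.Work.MP_8da9ea_nt.EB Pool.Agent.Work.MP_8da9ea_nt.MX

namespace IAD_AZ

/-- Derivations vanish at algebraic numbers. -/
theorem der_zero (δ : Derivation ℚ ℂ ℂ) {x : ℂ} (hx : IsAlgebraic ℚ x) : δ x = 0 := by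
  have hx' : IsIntegral ℚ x := hx.isIntegral
  have hsep : (minpoly ℚ x).Separable := (minpoly.irreducible hx').separable
  have h0 : Polynomial.aeval x (minpoly ℚ x) = 0 := minpoly.aeval ℚ x
  have h1 : δ (Polynomial.aeval x (minpoly ℚ x)) =
      Polynomial.aeval x (Polynomial.derivative (minpoly ℚ x)) • δ x :=
    Derivation.map_aeval δ (minpoly ℚ x) x
  rw [h0, map_zero] at h1
  have h2 : Polynomial.aeval x (Polynomial.derivative (minpoly ℚ x)) ≠ 0 :=
    hsep.aeval_derivative_ne_zero h0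
  exact (smul_eq_zero.1 h1.symm).resolve_left h2

theorem append_alg {m m' : ℕ} {b : Fin m → ℂ} {b' : Fin m' → ℂ} (hb : ∀ j, IsAlgebraic ℚ (b j))
    (hb' : ∀ j, IsAlgebraic ℚ (b' j)) (j : Fin (m + m')) : IsAlgebraic ℚ (Fin.append b b' j) := by
  refine Fin.addCases (fun i => ?_) (fun i => ?_) j
  · rw [Fin.append_left]
    exact hb i
  · rw [Fin.append_right]
    exact hb' i

theorem TT_top {m m' : ℕ} {b : Fin m → ℂ} {b' : Fin m' → ℂ} (hb : ∀ j, IsAlgebraic ℚ (b j))
    (hb' : ∀ j, IsAlgebraic ℚ (b' j)) : TT (Fin.append b b') = ⊤ := by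
  refine eq_top_iff.2 fun δ _ => ?_
  intro i
  exact der_zero δ (append_alg hb hb' i)

theorem trle_zero {m m' : ℕ} {b : Fin m → ℂ} {b' : Fin m' → ℂ} (hb : ∀ j, IsAlgebraic ℚ (b j))
    (hb' : ∀ j, IsAlgebraic ℚ (b' j)) : TrLe 0 (Fin.append b b') :=
  fun s hs => hs.transcendental 0 (append_alg hb hb' (s 0))

/-- The bijection to the labels. -/
theorem core {ι : Type} [Fintype ι] {n : ℕ} (hn : Fintype.card ι = n) (z : ℂ) (e : ι → ℂ)
    (hz : IsAlgebraic ℚ z) (s : Fin n → Option ι)
    (hs : AlgebraicIndependent ℚ (fun i => (s i).elim z e)) : AlgebraicIndependent ℚ e := by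
  classical
  have key : ∀ i, ∃ q : ι, s i = some q := by
    intro i
    have h3 := hs.transcendental i
    rcases h4 : s i with _ | q
    · rw [h4] at h3
      exact absurd hz h3
    · exact ⟨q, rfl⟩
  choose f hf using key
  have h6 : AlgebraicIndependent ℚ (fun i => e (f i)) := by
    have : (fun i => (s i).elim z e) = fun i => e (f i) := by
      funext i
      rw [hf i]
      rfl
    rwa [this] at hs
  have h7 : Function.Injective f := by
    intro i j hij
    apply h6.injective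
    show e (f i) = e (f j)
    rw [hij]
  have h8 : Function.Bijective f := by
    refine (Fintype.bijective_iff_injective_and_card f).2 ⟨h7, ?_⟩
    rw [Fintype.card_fin, hn]
  let g := Equiv.ofBijective f h8
  have h9 := h6.comp g.symm g.symm.injective
  have h10 : (fun i => e (f i)) ∘ g.symm = e := by
    funext q
    show e (f (g.symm q)) = _
    have : f (g.symm q) = q := g.apply_symm_apply q
    rw [this]
  rwa [h10] at h9

end IAD_AZ

open IAD_AZ in
/-- item AZ -/
theorem ad_AZ : S_AZ := by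
  intro hZ hT hB m m' b b' z ω₁ ω₂ τ hb hb' hSch h1 hμ hω hL hA hBk
  have hTT : TT (Fin.append b b') = ⊤ := TT_top hb hb'
  have hTr : TrLe 0 (Fin.append b b') := trle_zero hb hb'
  have hnotL : ∀ y : ℂ, ω₁⁻¹ * y ∉ Lam τ → ∀ a c : ℤ, y ≠ (a : ℂ) * ω₁ + (c : ℂ) * ω₂ := by
    intro y hy a c hac
    apply hy
    rw [hac]
    rcases hω with h | h
    · refine mem_Lam.2 ⟨a, c, ?_⟩
      rw [h]
      field_simp
    · refine mem_Lam.2 ⟨a, -c, ?_⟩
      rw [h]
      push_cast
      field_simp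
  have hmain : ∃ s : Fin (m + 2 * m') → Option (Fin m ⊕ (Fin m' ⊕ Fin m')),
      AlgebraicIndependent ℚ (fun i => (s i).elim z (Sum.elim (fun j => Complex.exp (b j * z))
        (Sum.elim (fun j => wp ω₁ ω₂ (b' j * z)) (fun j => zt ω₁ ω₂ (b' j * z))))) := by
    have hind : AlgebraicIndependent ℚ
        (fun i : Fin 0 => Fin.append b b' ((fun i : Fin 0 => (i.elim0 : Fin (m + m'))) i)) :=
      algebraicIndependent_empty_type_iff.2 (algebraMap ℚ ℂ).injective
    obtain ⟨s, hs⟩ := hB m m' 0 b b' z ω₁ ω₂ τ ω₁⁻¹ (fun i => i.elim0) hind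
      (fun j => (append_alg hb hb' j).extendScalars (algebraMap ℚ _).injective) hμ hω h1 rfl hL
      (by rw [hTT]; omega)
    have key : ∀ i, ∃ q : Option (Fin m ⊕ (Fin m' ⊕ Fin m')), s i = Sum.inr q := by
      intro i
      have h3 := hs.transcendental i
      rcases h4 : s i with j | q
      · rw [h4] at h3
        exact absurd (append_alg hb hb' j) h3
      · exact ⟨q, rfl⟩
    choose f hf using key
    refine ⟨f, ?_⟩
    have h5 : (fun i => Sum.elim (Fin.append b b') (fun o => o.elim z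
        (Sum.elim (fun j => Complex.exp (b j * z)) (Sum.elim (fun j => wp ω₁ ω₂ (b' j * z))
          (fun j => zt ω₁ ω₂ (b' j * z))))) (s i)) =
        fun i => (f i).elim z (Sum.elim (fun j => Complex.exp (b j * z))
          (Sum.elim (fun j => wp ω₁ ω₂ (b' j * z)) (fun j => zt ω₁ ω₂ (b' j * z)))) := by
      funext i
      rw [hf i]
      rfl
    rwa [h5] at hs
  refine ⟨fun j => hnotL _ (hL j), hmain, fun hz => ?_, fun r r' N hr hr' s k t p hNN => ?_⟩
  · obtain ⟨s, hs⟩ := hmain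
    refine core ?_ z _ hz s hs
    simp only [Fintype.card_fin, Fintype.card_sum]
    ring
  · exact hZ m m' 0 r r' N b b' z ω₁ ω₂ hTr
      (fun h => ⟨by have := hr h; omega, hT m m' 0 b b' z hSch hTr⟩)
      (fun h => ⟨τ, ω₁⁻¹, hμ, hω, h1, fun K h2 h3 => EB.Final.nrm_alg hμ K h2 h3,
        by have := hr' h; omega, Or.inr ⟨rfl, by rw [hTT]; omega, by rw [hTT]; omega⟩⟩)
      s k t p hNN

end Pool.Agent.Work.MP_8da9ea_nt.AD
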