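import Pool.Agent.Work.MP_8da9ea_nt.AD.StmtsB

/-!
# MP_8da9ea_nt, block AD, item RP: the forms are evaluations at differentials
-/

set_option autoImplicit false

namespace Pool.Agent.Work.MP_8da9ea_nt.AD

open MvPolynomial Pool.Agent.Work.MP_327059_nt.GL Pool.Agent.Work.MP_8da9ea_nt.S
  Pool.Agent.Work.MP_8da9ea_nt.EB Pool.Agent.Work.MP_8da9ea_nt.MX

namespace IAD_RP

/-- The value of a derivation is the evaluation at the differential. -/
theorem lift (δ : Derivation ℚ ℂ ℂ) (x : ℂ) :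
    δ.liftKaehlerDifferential (KaehlerDifferential.D ℚ ℂ x) = δ x :=
  δ.liftKaehlerDifferential_comp_D x

end IAD_RP

/-- Item RP. -/
theorem ad_RP : S_RP := by
  refine ⟨fun y => ?_, fun u => ?_, fun τ μ u => ?_, fun τ μ u => ?_⟩
  · refine ⟨KaehlerDifferential.D ℚ ℂ y, fun δ => ?_⟩
    rw [IAD_RP.lift]
    rfl
  · refine ⟨(Complex.exp u)⁻¹ • KaehlerDifferential.D ℚ ℂ (Complex.exp u), fun δ => ?_⟩
    rw [map_smul, IAD_RP.lift]
    change _ = FR.th δ u
    unfold FR.th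
    rw [smul_eq_mul]
    ring
  · by_cases h : u ∈ Lam τ
    · refine ⟨0, fun δ => ?_⟩
      rw [map_zero]
      change _ = lam τ μ δ u
      unfold lam
      rw [if_pos h]
    · refine ⟨(ye τ μ u)⁻¹ • KaehlerDifferential.D ℚ ℂ (xe τ μ u), fun δ => ?_⟩
      rw [map_smul, IAD_RP.lift]
      change _ = lam τ μ δ u
      unfold lam
      rw [if_neg h, smul_eq_mul]
      ring
  · by_cases h : u ∈ Lam τ
    · refine ⟨KaehlerDifferential.D ℚ ℂ (μ * qp τ u), fun δ => ?_⟩
      rw [IAD_RP.lift]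
      change _ = etT τ μ 0 δ u
      unfold etT etC
      rw [if_pos h]
      ring
    · refine ⟨KaehlerDifferential.D ℚ ℂ (ze τ μ u) +
        xe τ μ u • ((ye τ μ u)⁻¹ • KaehlerDifferential.D ℚ ℂ (xe τ μ u)), fun δ => ?_⟩
      rw [map_add, map_smul, map_smul, IAD_RP.lift, IAD_RP.lift]
      change _ = etT τ μ 0 δ u
      unfold etT etC etf lam
      rw [if_neg h, if_neg h, if_neg h, smul_eq_mul, smul_eq_mul]
      ring

end Pool.Agent.Work.MP_8da9ea_nt.AD
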