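import Pool.Agent.Work.MP_8da9ea_nt.AD.StmtsB
import Pool.Agent.Work.MP_327059_nt.LD.FN

/-!
# The ranks of the forms for almost all `n`
-/

set_option autoImplicit false

namespace Pool.Agent.Work.MP_8da9ea_nt.AD

open MvPolynomial Pool.Agent.Work.MP_327059_nt.GL Pool.Agent.Work.MP_8da9ea_nt.S
  Pool.Agent.Work.MP_8da9ea_nt.EB Pool.Agent.Work.MP_8da9ea_nt.MX Pool.Agent.Work.MP_327059_nt.LD

theorem LNull_empty : LNull ∅ := by
  intro ε hε
  refine ⟨0, fun N => ?_⟩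
  unfold ws ind
  have h0 : ∀ n ∈ Finset.Icc 1 N,
      (Set.indicator (∅ : Set ℕ) (fun _ => (1 : ℝ)) n) / n = 0 := by
    intro n _
    rw [Set.indicator_empty, zero_div]
  rw [Finset.sum_eq_zero h0, add_zero]
  exact mul_nonneg hε.le (Real.log_natCast_nonneg N)

theorem LNull_union {A B : Set ℕ} (hA : LNull A) (hB : LNull B) : LNull (A ∪ B) := by
  intro ε hε
  obtain ⟨C₁, h1⟩ := hA (ε / 2) (half_pos hε)
  obtain ⟨C₂, h2⟩ := hB (ε / 2) (half_pos hε)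
  refine ⟨C₁ + C₂, fun N => ?_⟩
  have h3 : ws (ind (A ∪ B)) N ≤ ws (ind A) N + ws (ind B) N := by
    unfold ws
    rw [← Finset.sum_add_distrib]
    refine Finset.sum_le_sum fun n _ => ?_
    rw [← add_div]
    refine div_le_div_of_nonneg_right ?_ (Nat.cast_nonneg n)
    unfold ind
    by_cases ha : n ∈ A
    · by_cases hb : n ∈ B
      · simp [ha, hb]
      · simp [ha, hb]
    · by_cases hb : n ∈ B
      · simp [ha, hb]
      · simp [ha, hb]
  have h4 := h1 N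
  have h5 := h2 N
  linarith

theorem LNull_ex {k : ℕ} (A : Fin k → Set ℕ) (h : ∀ j, LNull (A j)) : LNull {n | ∃ j, n ∈ A j} := by
  classical
  have h1 : ∀ s : Finset (Fin k), LNull {n | ∃ j ∈ s, n ∈ A j} := by
    intro s
    induction s using Finset.induction_on with
    | empty =>
      refine ILD_FN.LNull_mono ?_ LNull_empty
      rintro n ⟨j, hj, _⟩
      exact absurd hj (Finset.notMem_empty j)
    | insert a s _ ih =>
      refine ILD_FN.LNull_mono ?_ (LNull_union (h a) ih)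
      rintro n ⟨j, hj, hn⟩
      rcases Finset.mem_insert.1 hj with rfl | hj
      · exact Or.inl hn
      · exact Or.inr ⟨j, hj, hn⟩
  refine ILD_FN.LNull_mono ?_ (h1 Finset.univ)
  rintro n ⟨j, hn⟩
  exact ⟨j, Finset.mem_univ j, hn⟩

/-- The forms of the first kind are additive. -/
theorem mixA2_add (h : S_FOadd) {τ μ : ℂ} (hN : Nrm τ μ) {m m' : ℕ} (b : Fin m → ℂ)
    (b' : Fin m' → ℂ) (y y' : ℂ) (o : Option (Fin m ⊕ Fin m')) :
    mixA2 τ μ b b' (y + y') o = mixA2 τ μ b b' y o + mixA2 τ μ b b' y' o := by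
  rcases o with _ | (j | j)
  · exact FO2_add h true 0 hN b b' none y y'
  · exact FO2_add h true 0 hN b b' (some (Sum.inl j)) y y'
  · exact FO2_add h true 0 hN b b' (some (Sum.inr (Sum.inl j))) y y'

theorem mixB2_eq {τ μ : ℂ} {m m' : ℕ} (b : Fin m → ℂ) (b' : Fin m' → ℂ) (y : ℂ)
    (hy : ∀ j, μ * (b' j * y) ∉ Lam τ) : FO2 true τ μ 0 b b' y = mixB2 τ μ b b' y := by
  funext o
  rcases o with _ | (j | (j | j))
  · rfl
  · rfl
  · rfl
  · show (if true then etL τ μ 0 (μ * (b' j * y)) else 0) = efL τ μ (μ * (b' j * y))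
    rw [if_pos rfl]
    ext δ
    show etT τ μ 0 δ (μ * (b' j * y)) = etf τ μ δ (μ * (b' j * y))
    unfold etT etC
    rw [if_neg (hy j), zero_mul, add_zero]

theorem rep_A (hRP : S_RP) (τ μ : ℂ) {m m' : ℕ} (b : Fin m → ℂ) (b' : Fin m' → ℂ) (y : ℂ)
    (o : Option (Fin m ⊕ Fin m')) : Rep (mixA2 τ μ b b' y o) := by
  rcases o with _ | (j | j)
  · exact hRP.1 _
  · exact hRP.2.1 _
  · exact hRP.2.2.1 _ _ _

theorem rep_B (hRP : S_RP) (τ μ : ℂ) {m m' : ℕ} (b : Fin m → ℂ) (b' : Fin m' → ℂ) (y : ℂ)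
    (o : J4 m m') : Rep (FO2 true τ μ 0 b b' y o) := by
  rcases o with _ | (j | (j | j))
  · exact hRP.1 _
  · exact hRP.2.1 _
  · exact hRP.2.2.1 _ _ _
  · exact hRP.2.2.2 _ _ _

/-- The ranks for almost all `n`. -/
theorem ad_LM (hRN : S_RN) (hRP : S_RP) (hZW : S_ZW) (hFO : S_FOadd) (z : ℕ → ℂ)
    (hadd : ∀ k n : ℕ, 0 < k → 0 < n → z (k * n) = z k + z n)
    (hz : LinearIndependent ℚ (fun p : Nat.Primes => z p)) (τ μ : ℂ) (m m' : ℕ) (b : Fin m → ℂ)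
    (b' : Fin m' → ℂ) (hN : Nrm τ μ) (hb0 : ∀ j, b' j ≠ 0)
    (hex : ∀ Q : Set ℕ, Q.Infinite → (∀ p ∈ Q, p.Prime) → ∃ c : ℕ →₀ ℚ, (∀ p ∈ c.support, p ∈ Q) ∧
      (∀ j, μ * (b' j * cz z c) ∉ Lam τ) ∧ m + m' ≤ rA2 τ μ b b' (cz z c) ⊤ ∧
      m + 2 * m' ≤ rB2 τ μ b b' (cz z c) ⊤) :
    LNull {n | 1 ≤ n ∧ ¬ ((∀ j, μ * (b' j * z n) ∉ Lam τ) ∧ m + m' ≤ rA2 τ μ b b' (z n) ⊤ ∧
      m + 2 * m' ≤ rB2 τ μ b b' (z n) ⊤)} := by
  classical
  have h1 : ∀ j, LNull {n | 1 ≤ n ∧ μ * (b' j * z n) ∈ Lam τ} := by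
    intro j
    have hμb : μ * b' j ≠ 0 := mul_ne_zero hN.mu (hb0 j)
    refine ILD_FN.LNull_mono ?_ (hZW z hadd hz
      (Submodule.span ℚ {(μ * b' j)⁻¹, τ * (μ * b' j)⁻¹})
      (FiniteDimensional.span_of_finite ℚ (by simp)))
    rintro n ⟨hn, hmem⟩
    refine ⟨hn, ?_⟩
    obtain ⟨a, c, hac⟩ := mem_Lam.1 hmem
    have h2 : z n = (a : ℚ) • (μ * b' j)⁻¹ + (c : ℚ) • (τ * (μ * b' j)⁻¹) := by
      rw [Rat.smul_def, Rat.smul_def]
      push_cast
      have h3 : (μ * b' j) * z n = a + c * τ := by rw [← hac]; ring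
      have h4 : z n = ((μ * b' j) * z n) * (μ * b' j)⁻¹ := by
        rw [mul_comm (μ * b' j) (z n), mul_assoc, mul_inv_cancel₀ hμb, mul_one]
      rw [h4, h3]
      ring
    rw [h2]
    exact Submodule.add_mem _ (Submodule.smul_mem _ _ (Submodule.subset_span (by simp)))
      (Submodule.smul_mem _ _ (Submodule.subset_span (by simp)))
  have h2 := hRN z hadd (Option (Fin m ⊕ Fin m')) (mixA2 τ μ b b')
    (fun y y' o => mixA2_add hFO hN b b' y y' o) (rep_A hRP τ μ b b') (m + m') (by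
      intro Q hQ hQp
      obtain ⟨c, hc, -, hA, -⟩ := hex Q hQ hQp
      refine ⟨c, hc, ?_⟩
      rw [LinearMap.range_eq_map]
      exact hA)
  have h3 := hRN z hadd (J4 m m') (FO2 true τ μ 0 b b')
    (fun y y' o => FO2_add hFO true 0 hN b b' o y y') (rep_B hRP τ μ b b') (m + 2 * m') (by
      intro Q hQ hQp
      obtain ⟨c, hc, hL, -, hB⟩ := hex Q hQ hQp
      refine ⟨c, hc, ?_⟩
      rw [LinearMap.range_eq_map, mixB2_eq b b' _ hL]
      exact hB)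
  refine ILD_FN.LNull_mono ?_ (LNull_union (LNull_ex _ h1) (LNull_union h2 h3))
  rintro n ⟨hn, hno⟩
  by_cases hL : ∀ j, μ * (b' j * z n) ∉ Lam τ
  swap
  · push Not at hL
    obtain ⟨j, hj⟩ := hL
    exact Or.inl ⟨j, hn, hj⟩
  refine Or.inr ?_
  by_contra hcon
  apply hno
  refine ⟨hL, ?_, ?_⟩
  · by_contra hA
    apply hcon
    refine Or.inl ⟨hn, ?_⟩
    rw [LinearMap.range_eq_map]
    exact not_le.1 hA
  · by_contra hB
    apply hcon
    refine Or.inr ⟨hn, ?_⟩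
    rw [LinearMap.range_eq_map, mixB2_eq b b' _ hL]
    exact not_le.1 hB

end Pool.Agent.Work.MP_8da9ea_nt.AD
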