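import Pool.Agent.Work.MP_8da9ea_nt.MX.StmtsF
import Pool.Agent.Work.MP_8da9ea_nt.AD.StmtsA

/-!
# MP_8da9ea_nt, block AD (captain helper12): almost all integers. Statements with complete proofs (elliptic part)
-/

set_option autoImplicit false

namespace Pool.Agent.Work.MP_8da9ea_nt.AD

open MvPolynomial Pool.Agent.Work.MP_327059_nt.GL Pool.Agent.Work.MP_8da9ea_nt.S
  Pool.Agent.Work.MP_8da9ea_nt.EB Pool.Agent.Work.MP_8da9ea_nt.MX

/-- [RP] (EASY) The forms are evaluations at differentials. PROOF. `k = D y`; `k = (e^u)⁻¹ • D (e^u)`; `k = 0` or `(ye)⁻¹ • D (xe)`; `k = D (μ qp)` or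
`D (ze) + xe • ((ye)⁻¹ • D (xe))` (`etT τ μ 0 δ u = etC τ μ δ u + 0 * ..`). `Derivation.liftKaehlerDifferential_comp_D`, `map_smul`, `map_add`. -/
def S_RP : Prop := (∀ y : ℂ, Rep (MX.dL y)) ∧ (∀ u : ℂ, Rep (MX.thL u)) ∧
  (∀ τ μ u : ℂ, Rep (MX.laL τ μ u)) ∧
  ∀ τ μ u : ℂ, Rep (MX.etL τ μ 0 u)

/-- [EX] (EASY-MEDIUM) Good combinations over an infinite set of primes. PROOF. The hypotheses are S_MixRankF (a theorem, `x_MixRankF` in `MX/AsmF.lean`; do not import that file) and that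
tuples of algebraic numbers are `FT 1`. Apply S_MixRankF with `Q = 1`: `n₀`; `κ = 0` (`TrLe 0` for algebraic numbers: `fun s hs => hs.transcendental 0 ..`). Choose `n₀`
different elements `p_i` of `Q` (`Set.Infinite.natEmbedding`), `x i = z (p_i)`, linearly independent (`LinearIndependent.comp`). `P ≠ 0` does not
vanish at some rational `w` (`MvPolynomial.funext` over the infinite set `ℚ ⊂ ℂ`; there are such lemmas in the pool: search for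
`exists_rat` / `eval .. ≠ 0`). `c = Finsupp.embDomain e (Finsupp.equivFunOnFinite.symm w)` (see `nx` in `AD/Core.lean`), `cz z c = ∑ w_i x_i`. `TT (Fin.append b b') = ⊤` because
derivations are `0` at algebraic numbers. -/
def S_EX : Prop := S_MixRankF → (∀ (m : ℕ) (b : Fin m → ℂ), (∀ j, IsAlgebraic ℚ (b j)) → FT 1 b) →
  ∀ (z : ℕ → ℂ), LinearIndependent ℚ (fun p : Nat.Primes => z p) →
  ∀ (τ μ : ℂ) (m m' : ℕ) (b : Fin m → ℂ) (b' : Fin m' → ℂ), Nrm τ μ →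
  (∀ j, IsAlgebraic ℚ (b j)) → (∀ j, IsAlgebraic ℚ (b' j)) → LinearIndependent ℚ b → KLI τ b' →
  ∀ Q : Set ℕ, Q.Infinite → (∀ p ∈ Q, p.Prime) → ∃ c : ℕ →₀ ℚ, (∀ p ∈ c.support, p ∈ Q) ∧
    (∀ j, μ * (b' j * cz z c) ∉ Lam τ) ∧ m + m' ≤ rA2 τ μ b b' (cz z c) ⊤ ∧
    m + 2 * m' ≤ rB2 τ μ b b' (cz z c) ⊤

/-- [AZ] (MEDIUM) From the ranks to the conclusions, at one point `z`. PROOF. See `MX/FinalF.lean`, the part `algebraic invariants` (with `κ = κ₀ = 0`, `sb : Fin 0 → _`; `TT (Fin.append b b') = ⊤`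
because derivations are `0` at algebraic numbers; `TrLe 0`), for (a) (`hnotL` there) and (d) (S_FinalZF with `Or.inr`, S_TorRank2, `nrm_alg` in
`EB/Final.lean`, namespace `EB.Final`). (b): S_AbsF gives `s : Fin (m + 2m') → Fin (m + m') ⊕ Option ..`; no `s i` is `Sum.inl` (the member would be algebraic:
`AlgebraicIndependent.transcendental`), so `s` comes from `Option ..`. (c): in (b) no `s i` is `none`, and `s` is injective
(`AlgebraicIndependent.injective`), so it is a bijection to the `m + 2m'` labels `some ..` (`Fintype` cardinality): see `AlgC.core` in `MX/AlgC.lean`. -/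
def S_AZ : Prop := S_FinalZF → S_TorRank2 → S_AbsF → ∀ (m m' : ℕ) (b : Fin m → ℂ) (b' : Fin m' → ℂ)
  (z ω₁ ω₂ τ : ℂ), (∀ j, IsAlgebraic ℚ (b j)) → (∀ j, IsAlgebraic ℚ (b' j)) → Sch b z →
  ω₁ ≠ 0 → Nrm τ ω₁⁻¹ → (ω₂ = ω₁ * τ ∨ ω₂ = -(ω₁ * τ)) → (∀ j, ω₁⁻¹ * (b' j * z) ∉ Lam τ) →
  m + m' ≤ rA2 τ ω₁⁻¹ b b' z ⊤ → m + 2 * m' ≤ rB2 τ ω₁⁻¹ b b' z ⊤ →
    (∀ j, ∀ a c : ℤ, b' j * z ≠ (a : ℂ) * ω₁ + (c : ℂ) * ω₂) ∧
    (∃ s : Fin (m + 2 * m') → Option (Fin m ⊕ (Fin m' ⊕ Fin m')),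
      AlgebraicIndependent ℚ (fun i => (s i).elim z (Sum.elim (fun j => Complex.exp (b j * z))
        (Sum.elim (fun j => wp ω₁ ω₂ (b' j * z)) (fun j => zt ω₁ ω₂ (b' j * z)))))) ∧
    (IsAlgebraic ℚ z → AlgebraicIndependent ℚ (Sum.elim (fun j => Complex.exp (b j * z))
        (Sum.elim (fun j => wp ω₁ ω₂ (b' j * z)) (fun j => zt ω₁ ω₂ (b' j * z))))) ∧
    ∀ r r' N : ℕ, (0 < r → r + N + 1 ≤ m) → (0 < r' → r' + N + 1 ≤ m') →
      ∀ (s k : ℕ) (t : Fin s → ℂ) (p : Fin k → ℂ), ¬ HasTrdeg (bigField ω₁ ω₂ t p) (N + 1) →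
      ∃ P : MvPolynomial (Fin r × Fin m ⊕ Fin r' × Fin m') ℂ, P ≠ 0 ∧ P.IsHomogeneous (r + 2 * r') ∧
      ∀ (c : Fin r → Fin m → ℚ) (c' : Fin r' → Fin m' → ℚ),
        MvPolynomial.eval (Sum.elim (fun q => (c q.1 q.2 : ℂ)) (fun q => (c' q.1 q.2 : ℂ))) P ≠ 0 →
      ∀ (u : Fin r → ℂ) (v : Fin r' → ℂ), (∀ i, u i = (∑ j, (c i j : ℂ) * b j) * z) →
        (∀ i, v i = (∑ j, (c' i j : ℂ) * b' j) * z) →
        (∀ i, ∀ a b : ℤ, v i ≠ (a : ℂ) * ω₁ + (b : ℂ) * ω₂) ∧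
        (∀ d, HasTrdeg (bigField ω₁ ω₂ t p) d →
          HasTrdeg (bigField ω₁ ω₂ (Fin.append t u) (Fin.append p v)) (d + r + 2 * r')) ∧
        (Q1 ω₁ ω₂ t p → Q1 ω₁ ω₂ (Fin.append t u) (Fin.append p v))

/-- [CL] (MEDIUM) The bases of lattices with algebraic invariants are countably many. PROOF. `F = CD.cl ∅` is countable (`CD.prf_ClC`), algebraically closed (`(CD.closed_cl ∅).alg`), contains `ω₂ / ω₁` iff it
contains `jInv ω₁ ω₂` (`CD.closed_jiff (CD.closed_cl ∅) him`), and contains `bigField 1 τ ![] ![]` if `τ ∈ F` (`CD.closed_big`); see the first lines of the proof of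
`main` in `SF/Fin.lean` (import `Pool.Agent.Work.MP_8da9ea_nt.SF.Parts` or only the `CD` files). Let `ω₁, ω₂` be a basis with algebraic `g₂ = 60 gk 4`, `g₃ = 140 gk 6`, `τ = ω₂ / ω₁`. `jInv` is
a rational function of `g₂, g₃`, so algebraic, and `τ ∈ F`, so `60 gk 4 1 τ, 140 gk 6 1 τ ∈ F`. `gk 4 1 τ = ω₁^4 gk 4 ω₁ ω₂`, `gk 6 1 τ = ω₁^6 gk 6 ω₁ ω₂`
(`gk_norm` in `Bd/B06.lean`; proof of `hg4` in `MX/FinalF.lean`), and one of `g₂, g₃` is not `0` (the discriminant is not `0`: search for `disc` in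
`CD/`, `EB/`, `Eis.lean`). So `ω₁ ^ 4 ∈ F` or `ω₁ ^ 6 ∈ F`, `ω₁ ∈ F`, `ω₂ = τ ω₁ ∈ F`. The set is contained in `F × F` (`Set.Countable.prod`). -/
def S_CL : Prop := {q : ℂ × ℂ | (q.2 / q.1).im ≠ 0 ∧ IsAlgebraic ℚ (60 * gk 4 q.1 q.2) ∧
  IsAlgebraic ℚ (140 * gk 6 q.1 q.2)}.Countable

end Pool.Agent.Work.MP_8da9ea_nt.AD
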